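import Mathlib

/-!
# The Monster (Semple) tower of `ℂⁿ`, in Kumpera–Ruiz coordinates

**Points and frames.**  Let `x₁, …, xₙ` be the coordinates of `P⁰(n) = ℂⁿ`; the differentials
`dx₁, …, dxₙ` are a basis of the dual of `Δ₀`.  Assume that near a point `p` of `Pᵏ(n)` we have
`n` functions `θ₁, …, θₙ` (the *active coordinates*) whose differentials restrict to a basis of the
dual of `Δₖ`.  Then lines in `Δₖ(p)` are the points `ℓ = [ℓ₁ : … : ℓₙ]` of the projective space of
`ℂⁿ` (`ℓⱼ` is the value of `dθⱼ`), and a point of `Pᵏ⁺¹(n)` over `p` is such a line.  Choose an index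
`c` with `ℓ_c ≠ 0`; near `(p, ℓ)` the functions `θ_c` and `dθⱼ / dθ_c` (`j ≠ c`) are the active
coordinates of the next level: their differentials restrict to a basis of the dual of `Δₖ₊₁`.

The index `c` is chosen as a function of the point `(p, ℓ)` (`chartIndex`): the index used
at the level below if possible, and otherwise some fixed index with `ℓ_c ≠ 0`.

**Curves.**  The velocity of a nonconstant curve germ `γ` in the active coordinates is
`(θ₁', …, θₙ')`; divided by the largest possible power of `t` it spans the tangent line of `γ` at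
`t = 0`.  The prolongation of `γ` is, in the next active coordinates, `θ_c` and `θⱼ' / θ_c'`.

**Critical hyperplanes.**  In the active coordinates at `p ∈ Pᵏ(n)` they are the coordinate
hyperplanes `dθ_a = 0`, for `a` in `crit p`: the vertical hyperplane at `(p, ℓ)` is `dθ_c = 0`, and the
prolongation of a fibre with tangent hyperplane `dθ_a = 0` at `p` passes through `(p, ℓ)` if and
only if `ℓ_a = 0`, and then its tangent hyperplane is that of the new `a`-th active coordinate.
-/

set_option autoImplicit false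

namespace Q178.Monster

open PowerSeries LinearAlgebra.Projectivization

open scoped LinearAlgebra.Projectivization

/-- A formal curve germ in `ℂⁿ` (or in `n` active coordinates): an `n`-tuple of formal power
series in one variable `t`, not all of them constant. -/
structure Arc (n : ℕ) where
  /-- the coordinates of the curve, as power series in `t` -/
  coord : Fin n → ℂ⟦X⟧
  nonconst : ∃ j, d⁄dX ℂ (coord j) ≠ 0

/-- convergent power series: the coefficients are bounded by a geometric sequence -/
def Convergent (f : ℂ⟦X⟧) : Prop := ∃ C R : ℝ, ∀ i : ℕ, ‖coeff i f‖ ≤ C * R ^ i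

variable {n : ℕ}

/-- `γ` is an analytic (that is, convergent) curve germ -/
def Arc.IsAnalytic (γ : Arc n) : Prop := ∀ j, Convergent (γ.coord j)

/-- the order of vanishing at `t = 0` of the velocity vector -/
noncomputable def Arc.velOrder (A : Arc n) : ℕ := sInf {q | ∃ j, coeff q (d⁄dX ℂ (A.coord j)) ≠ 0}

/-- the leading coefficient of the velocity vector at `t = 0` -/
noncomputable def Arc.vel (A : Arc n) : Fin n → ℂ := fun j => coeff A.velOrder (d⁄dX ℂ (A.coord j))

lemma Arc.vel_spec (A : Arc n) : ∃ j, A.vel j ≠ 0 := by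
  have h : ∃ q, q ∈ {q | ∃ j, coeff q (d⁄dX ℂ (A.coord j)) ≠ 0} := by
    obtain ⟨j, hj⟩ := A.nonconst
    obtain ⟨q, hq⟩ := exists_coeff_ne_zero_iff_ne_zero.2 hj
    exact ⟨q, j, hq⟩
  exact Nat.sInf_mem h

lemma Arc.vel_ne_zero (A : Arc n) : A.vel ≠ 0 := by
  obtain ⟨j, hj⟩ := A.vel_spec
  intro h
  exact hj (congrFun h j)

/-- the tangent line of the curve at `t = 0` (the limit of the tangent lines), in the frame of
the active coordinates -/
noncomputable def Arc.tangentLine (A : Arc n) : ℙ ℂ (Fin n → ℂ) :=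
  Projectivization.mk ℂ A.vel A.vel_ne_zero

/-- `Pᵏ(n)`: the points of the `k`-th level of the Monster tower of `ℂⁿ`.  A point of level `k + 1`
is a point `p` of level `k` together with a line in `Δₖ(p)`, given by its homogeneous
coordinates in the frame of the active coordinates at `p`. -/
def P (n : ℕ) : ℕ → Type
  | 0 => Fin n → ℂ
  | k + 1 => P n k × ℙ ℂ (Fin n → ℂ)

lemma exists_rep_ne_zero (ℓ : ℙ ℂ (Fin n → ℂ)) : ∃ c, ℓ.rep c ≠ 0 := by
  by_contra h
  push Not at h
  exact ℓ.rep_nonzero (funext h)

open Classical in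
/-- the chart index used at the point `(p, ℓ)`, where `prev` is the chart index used at `p` -/
noncomputable def chartIndex (prev : Option (Fin n)) (ℓ : ℙ ℂ (Fin n → ℂ)) : Fin n :=
  if h : ∃ c, prev = some c ∧ ℓ.rep c ≠ 0 then h.choose else (exists_rep_ne_zero ℓ).choose

/-- the chart index used at a point of the tower (none at level `0`) -/
noncomputable def chart : {k : ℕ} → P n k → Option (Fin n)
  | 0, _ => none
  | _ + 1, p => some (chartIndex (chart p.1) p.2)

/-- the indices of the critical hyperplanes at a point of the tower -/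
def crit : {k : ℕ} → P n k → Set (Fin n)
  | 0, _ => ∅
  | _ + 1, p => {a | a = chartIndex (chart p.1) p.2 ∨ (a ∈ crit p.1 ∧ p.2.rep a = 0)}

open Classical in
/-- the quotient `f / g` of two power series, when `g` divides `f` -/
noncomputable def quot (f g : ℂ⟦X⟧) : ℂ⟦X⟧ := if h : g ∣ f then h.choose else 0

open Classical in
/-- the prolongation of a curve in the chart `c`: the new coordinates are `θ_c` and
`θⱼ' / θ_c'` for `j ≠ c` -/
noncomputable def Arc.prolong (A : Arc n) (c : Fin n) : Arc n :=
  if hc : d⁄dX ℂ (A.coord c) ≠ 0 then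
    ⟨fun j => if j = c then A.coord c else quot (d⁄dX ℂ (A.coord j)) (d⁄dX ℂ (A.coord c)),
      ⟨c, by simpa using hc⟩⟩
  else A

/-- The `k`-fold prolongation `γᵏ` of a curve germ `γ`: the point `γᵏ(0)` of `Pᵏ(n)`, and the germ
`γᵏ` in the active coordinates at this point. -/
noncomputable def Arc.lift (γ : Arc n) : (k : ℕ) → P n k × Arc n
  | 0 => (fun j => constantCoeff (γ.coord j), γ)
  | k + 1 => (((γ.lift k).1, (γ.lift k).2.tangentLine),
      (γ.lift k).2.prolong (chartIndex (chart (γ.lift k).1) (γ.lift k).2.tangentLine))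

/-- `Germ(p)`: the analytic curve germs `γ` with `γᵏ(0) = p` such that `γᵏ` is immersed at `0` and
its velocity at `0` lies in no critical hyperplane -/
def Germ {k : ℕ} (p : P n k) : Set (Arc n) :=
  {γ | γ.IsAnalytic ∧ (γ.lift k).1 = p ∧ (∃ j, coeff 1 ((γ.lift k).2.coord j) ≠ 0) ∧
    ∀ a ∈ crit p, coeff 1 ((γ.lift k).2.coord a) ≠ 0}

/-- `p` is a Cartan point: `p = γᵏ(0)` for an immersed analytic curve germ `γ` -/
def IsCartan {k : ℕ} (p : P n k) : Prop :=
  ∃ γ : Arc n, γ.IsAnalytic ∧ (∃ j, coeff 1 (γ.coord j) ≠ 0) ∧ (γ.lift k).1 = p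

/-- `jʳγ` equals `β` up to reparametrization: `jʳ(γ ∘ τ) = β` for a local biholomorphism `τ` of
`(ℂ, 0)`.  The `r`-jet `β` is given by its coefficients. -/
def JetRep (r : ℕ) (γ : Arc n) (β : Fin n → Fin (r + 1) → ℂ) : Prop :=
  ∃ τ : ℂ⟦X⟧, Convergent τ ∧ constantCoeff τ = 0 ∧ coeff 1 τ ≠ 0 ∧
    ∀ (j : Fin n) (i : Fin (r + 1)), coeff (i : ℕ) ((γ.coord j).subst τ : ℂ⟦X⟧) = β j i

/-- `p` has jet identification number `r` -/
def HasJetIdentificationNumber {k : ℕ} (p : P n k) (r : ℕ) : Prop :=
  ∃ β : Fin n → Fin (r + 1) → ℂ, Germ p = {γ : Arc n | γ.IsAnalytic ∧ JetRep r γ β}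

end Q178.Monster
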