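import Mathlib

/-!
# Formal power series: orders, derivatives and compositions
-/

set_option autoImplicit false

namespace Q178.Monster

open PowerSeries

/-- composition `f ∘ σ` -/
noncomputable def cmp (f σ : ℂ⟦X⟧) : ℂ⟦X⟧ := f.subst σ

/-- the derivative -/
noncomputable def dd (f : ℂ⟦X⟧) : ℂ⟦X⟧ := d⁄dX ℂ f

/-- `f` has order exactly `q` -/
def E (f : ℂ⟦X⟧) (q : ℕ) : Prop := X ^ q ∣ f ∧ coeff q f ≠ 0

/-- `σ` is (the series of) a local biholomorphism -/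
def Inv1 (σ : ℂ⟦X⟧) : Prop := constantCoeff σ = 0 ∧ coeff 1 σ ≠ 0

lemma coeff_dd (f : ℂ⟦X⟧) (i : ℕ) : coeff i (dd f) = coeff (i + 1) f * (i + 1) := by
  unfold dd
  rw [coeff_derivative]

lemma dd_add (f g : ℂ⟦X⟧) : dd (f + g) = dd f + dd g := by
  unfold dd
  simp

lemma dd_sub (f g : ℂ⟦X⟧) : dd (f - g) = dd f - dd g := by
  unfold dd
  simp

lemma dd_C_mul (a : ℂ) (f : ℂ⟦X⟧) : dd (C a * f) = C a * dd f := by
  ext i
  rw [coeff_dd, coeff_C_mul, coeff_C_mul, coeff_dd]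
  ring

lemma dvd_dd {f : ℂ⟦X⟧} {q : ℕ} (h : X ^ (q + 1) ∣ f) : X ^ q ∣ dd f := by
  rw [X_pow_dvd_iff] at h ⊢
  intro i hi
  rw [coeff_dd, h (i + 1) (by omega), zero_mul]

lemma dvd_dd' {f : ℂ⟦X⟧} {q : ℕ} (h : X ^ q ∣ f) : X ^ (q - 1) ∣ dd f := by
  rcases q with _ | q
  · simp
  · exact dvd_dd h

lemma dvd_of_dd {f : ℂ⟦X⟧} {q : ℕ} (h0 : constantCoeff f = 0) (h : X ^ q ∣ dd f) :
    X ^ (q + 1) ∣ f := by
  rw [X_pow_dvd_iff] at h ⊢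
  intro i hi
  rcases i with _ | i
  · rw [coeff_zero_eq_constantCoeff_apply, h0]
  · have h1 := h i (by omega)
    rw [coeff_dd] at h1
    rcases mul_eq_zero.1 h1 with h2 | h2
    · exact h2
    · exact absurd h2 (Nat.cast_add_one_ne_zero i)

lemma dd_eq_zero {f : ℂ⟦X⟧} (h0 : constantCoeff f = 0) (h : dd f = 0) : f = 0 := by
  ext i
  rcases i with _ | i
  · rw [coeff_zero_eq_constantCoeff_apply, h0]
    simp
  · have h1 : coeff i (dd f) = 0 := by rw [h]; simp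
    rw [coeff_dd] at h1
    rcases mul_eq_zero.1 h1 with h2 | h2
    · simpa using h2
    · exact absurd h2 (Nat.cast_add_one_ne_zero i)

/-- the primitive with constant term `0` -/
noncomputable def prim (f : ℂ⟦X⟧) : ℂ⟦X⟧ := PowerSeries.mk fun i => coeff (i - 1) f / i

lemma constantCoeff_prim (f : ℂ⟦X⟧) : constantCoeff (prim f) = 0 := by
  rw [← coeff_zero_eq_constantCoeff_apply]
  simp [prim]

lemma dd_prim (f : ℂ⟦X⟧) : dd (prim f) = f := by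
  ext i
  rw [coeff_dd, prim, coeff_mk]
  have : ((i : ℂ) + 1) ≠ 0 := Nat.cast_add_one_ne_zero i
  simp only [Nat.add_sub_cancel, Nat.cast_add, Nat.cast_one]
  field_simp

lemma E_iff {f : ℂ⟦X⟧} {q : ℕ} : E f q ↔ ∃ u : ℂ⟦X⟧, IsUnit u ∧ f = X ^ q * u := by
  constructor
  · rintro ⟨⟨u, rfl⟩, h⟩
    refine ⟨u, ?_, rfl⟩
    rw [isUnit_iff_constantCoeff, isUnit_iff_ne_zero]
    intro h0
    apply h
    have := coeff_X_pow_mul u q 0
    rw [zero_add] at this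
    rw [this, coeff_zero_eq_constantCoeff_apply, h0]
  · rintro ⟨u, hu, rfl⟩
    refine ⟨dvd_mul_right _ _, ?_⟩
    have := coeff_X_pow_mul u q 0
    rw [zero_add] at this
    rw [this, coeff_zero_eq_constantCoeff_apply]
    rw [isUnit_iff_constantCoeff, isUnit_iff_ne_zero] at hu
    exact hu

lemma E.ne_zero {f : ℂ⟦X⟧} {q : ℕ} (h : E f q) : f ≠ 0 := by
  rintro rfl
  exact h.2 (by simp)

lemma E.mul {f g : ℂ⟦X⟧} {p q : ℕ} (hf : E f p) (hg : E g q) : E (f * g) (p + q) := by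
  obtain ⟨u, hu, rfl⟩ := E_iff.1 hf
  obtain ⟨v, hv, rfl⟩ := E_iff.1 hg
  exact E_iff.2 ⟨u * v, hu.mul hv, by ring⟩

lemma E.unique {f : ℂ⟦X⟧} {p q : ℕ} (hf : E f p) (hg : E f q) : p = q := by
  by_contra hne
  rcases lt_or_gt_of_ne hne with h | h
  · exact hf.2 ((X_pow_dvd_iff.1 hg.1) p h)
  · exact hg.2 ((X_pow_dvd_iff.1 hf.1) q h)

lemma E.dvd_le {f : ℂ⟦X⟧} {p q : ℕ} (hf : E f p) (h : X ^ q ∣ f) : q ≤ p := by
  by_contra hne
  exact hf.2 ((X_pow_dvd_iff.1 h) p (by omega))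

lemma exists_E {f : ℂ⟦X⟧} (hf : f ≠ 0) : ∃ q, E f q := by
  refine ⟨f.order.toNat, X_pow_order_dvd, coeff_order hf⟩

/-- cancellation -/
lemma E.dvd_cancel {f g : ℂ⟦X⟧} {p q : ℕ} (hg : E g q) (h : X ^ p ∣ f * g) : X ^ (p - q) ∣ f := by
  obtain ⟨u, hu, rfl⟩ := E_iff.1 hg
  rcases le_or_gt p q with hpq | hpq
  · rw [Nat.sub_eq_zero_of_le hpq, pow_zero]
    exact one_dvd _
  · have h1 : f * (X ^ q * u) = X ^ q * (f * u) := by ring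
    rw [h1] at h
    have h2 : (X : ℂ⟦X⟧) ^ p = X ^ q * X ^ (p - q) := by
      rw [← pow_add]
      congr 1
      omega
    rw [h2] at h
    have h3 := (mul_dvd_mul_iff_left (pow_ne_zero q X_ne_zero)).1 h
    exact (hu.dvd_mul_right).1 h3

lemma E.cancel {f g : ℂ⟦X⟧} {p q : ℕ} (hg : E g q) (h : E (f * g) p) :
    q ≤ p ∧ E f (p - q) := by
  have hf : f ≠ 0 := by
    rintro rfl
    exact h.ne_zero (by simp)
  obtain ⟨r, hr⟩ := exists_E hf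
  have h1 := (hr.mul hg).unique h
  refine ⟨by omega, ?_⟩
  have h2 : p - q = r := by omega
  rw [h2]
  exact hr

lemma E.congr {f g : ℂ⟦X⟧} {q : ℕ} (hf : E f q) (h : X ^ (q + 1) ∣ g - f) : E g q := by
  refine ⟨?_, ?_⟩
  · have h1 : g = f + (g - f) := by ring
    rw [h1]
    exact dvd_add hf.1 ((pow_dvd_pow X (Nat.le_succ q)).trans h)
  · have h1 := (X_pow_dvd_iff.1 h) q (by omega)
    rw [map_sub, sub_eq_zero] at h1
    rw [h1]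
    exact hf.2

lemma E.dd {f : ℂ⟦X⟧} {q : ℕ} (hf : E f (q + 1)) : E (dd f) q := by
  refine ⟨dvd_dd hf.1, ?_⟩
  rw [coeff_dd]
  exact mul_ne_zero hf.2 (Nat.cast_add_one_ne_zero q)

lemma E_of_dd {f : ℂ⟦X⟧} {q : ℕ} (h0 : constantCoeff f = 0) (h : E (Q178.Monster.dd f) q) :
    E f (q + 1) := by
  refine ⟨dvd_of_dd h0 h.1, ?_⟩
  have := h.2
  rw [coeff_dd] at this
  exact left_ne_zero_of_mul this

/-! ### Composition -/

lemma hs {σ : ℂ⟦X⟧} (h : constantCoeff σ = 0) : HasSubst σ :=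
  HasSubst.of_constantCoeff_zero' h

lemma cmp_add {σ : ℂ⟦X⟧} (h : constantCoeff σ = 0) (f g : ℂ⟦X⟧) :
    cmp (f + g) σ = cmp f σ + cmp g σ := subst_add (hs h) f g

lemma cmp_sub {σ : ℂ⟦X⟧} (h : constantCoeff σ = 0) (f g : ℂ⟦X⟧) :
    cmp (f - g) σ = cmp f σ - cmp g σ := subst_sub (hs h) f g

lemma cmp_mul {σ : ℂ⟦X⟧} (h : constantCoeff σ = 0) (f g : ℂ⟦X⟧) :
    cmp (f * g) σ = cmp f σ * cmp g σ := subst_mul (hs h) f g

lemma cmp_pow {σ : ℂ⟦X⟧} (h : constantCoeff σ = 0) (f : ℂ⟦X⟧) (n : ℕ) :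
    cmp (f ^ n) σ = cmp f σ ^ n := subst_pow (hs h) f n

lemma cmp_X {σ : ℂ⟦X⟧} (h : constantCoeff σ = 0) : cmp X σ = σ := subst_X (hs h)

lemma cmp_C (σ : ℂ⟦X⟧) (a : ℂ) : cmp (C a) σ = C a := subst_C (a := σ) a

lemma X_cmp (f : ℂ⟦X⟧) : cmp f X = f := X_subst f

lemma dd_cmp {σ : ℂ⟦X⟧} (h : constantCoeff σ = 0) (f : ℂ⟦X⟧) :
    dd (cmp f σ) = cmp (dd f) σ * dd σ := derivative_subst (hs h)

lemma constantCoeff_cmp {σ : ℂ⟦X⟧} (h : constantCoeff σ = 0) (f : ℂ⟦X⟧) :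
    constantCoeff (cmp f σ) = constantCoeff f := by
  have h1 : f = C (constantCoeff f) + (f - C (constantCoeff f)) := by ring
  have h2 : constantCoeff (f - C (constantCoeff f)) = 0 := by simp
  obtain ⟨g, hg⟩ := X_dvd_iff.2 h2
  rw [h1, hg, cmp_add h, cmp_C, cmp_mul h, cmp_X h]
  simp [h]

lemma cmp_assoc {σ τ : ℂ⟦X⟧} (h : constantCoeff σ = 0) (h' : constantCoeff τ = 0) (f : ℂ⟦X⟧) :
    cmp (cmp f σ) τ = cmp f (cmp σ τ) :=
  subst_comp_subst_apply (hs h) (hs h') f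

lemma Inv1.E {σ : ℂ⟦X⟧} (h : Inv1 σ) : Q178.Monster.E σ 1 := by
  refine ⟨?_, h.2⟩
  rw [pow_one]
  exact X_dvd_iff.2 h.1

lemma E.inv1 {σ : ℂ⟦X⟧} (h : Q178.Monster.E σ 1) : Inv1 σ := by
  refine ⟨?_, h.2⟩
  rw [← X_dvd_iff]
  simpa using h.1

lemma inv1_X : Inv1 (X : ℂ⟦X⟧) := by
  constructor <;> simp

lemma dvd_cmp {f σ : ℂ⟦X⟧} (h : constantCoeff σ = 0) {q : ℕ} (hf : X ^ q ∣ f) :
    X ^ q ∣ cmp f σ := by
  obtain ⟨g, rfl⟩ := hf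
  rw [cmp_mul h, cmp_pow h, cmp_X h]
  exact dvd_mul_of_dvd_left (pow_dvd_pow_of_dvd (X_dvd_iff.2 h) q) _

lemma coeff_cmp_of_dvd {f σ : ℂ⟦X⟧} (h : constantCoeff σ = 0) {q : ℕ} (hf : X ^ q ∣ f) :
    coeff q (cmp f σ) = coeff q f * coeff 1 σ ^ q := by
  obtain ⟨g, rfl⟩ := hf
  obtain ⟨s, rfl⟩ := X_dvd_iff.2 h
  rw [cmp_mul h, cmp_pow h, cmp_X h, mul_pow, mul_assoc]
  have h1 := coeff_X_pow_mul (s ^ q * cmp g (X * s)) q 0
  have h2 := coeff_X_pow_mul g q 0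
  have h3 := coeff_X_pow_mul s 1 0
  rw [zero_add] at h1 h2 h3
  rw [pow_one] at h3
  rw [h1, h2, h3]
  simp only [coeff_zero_eq_constantCoeff_apply, map_mul, map_pow]
  rw [constantCoeff_cmp h]
  ring

lemma E.cmp {f σ : ℂ⟦X⟧} (hσ : Inv1 σ) {q : ℕ} (hf : E f q) : E (Q178.Monster.cmp f σ) q := by
  refine ⟨dvd_cmp hσ.1 hf.1, ?_⟩
  rw [coeff_cmp_of_dvd hσ.1 hf.1]
  exact mul_ne_zero hf.2 (pow_ne_zero _ hσ.2)

lemma Inv1.cmp {σ τ : ℂ⟦X⟧} (hσ : Inv1 σ) (hτ : Inv1 τ) : Inv1 (Q178.Monster.cmp σ τ) :=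
  (hσ.E.cmp hτ).inv1

lemma Inv1.dd {σ : ℂ⟦X⟧} (hσ : Inv1 σ) : Q178.Monster.E (Q178.Monster.dd σ) 0 := hσ.E.dd

/-- the inverse biholomorphism -/
lemma Inv1.exists_inv {σ : ℂ⟦X⟧} (hσ : Inv1 σ) :
    ∃ τ : ℂ⟦X⟧, Inv1 τ ∧ Q178.Monster.cmp σ τ = X ∧ Q178.Monster.cmp τ σ = X := by
  have hu : IsUnit (coeff 1 σ) := isUnit_iff_ne_zero.2 hσ.2
  refine ⟨σ.substInvOfIsUnit hu, ⟨constantCoeff_substInvOfIsUnit σ hu, ?_⟩,
    subst_substInvOfIsUnit_right σ hσ.1 hu, subst_substInvOfIsUnit_left σ hσ.1 hu⟩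
  rw [coeff_one_substInvOfIsUnit]
  exact Units.ne_zero _

/-- composition depends continuously on the inner series -/
lemma dvd_cmp_sub_cmp (f : ℂ⟦X⟧) {σ τ : ℂ⟦X⟧} (hσ : constantCoeff σ = 0)
    (hτ : constantCoeff τ = 0) {e : ℕ} (h : X ^ e ∣ σ - τ) : X ^ e ∣ cmp f σ - cmp f τ := by
  rw [X_pow_dvd_iff]
  intro i hi
  rw [map_sub, sub_eq_zero]
  unfold cmp
  rw [coeff_subst' (hs hσ), coeff_subst' (hs hτ)]
  refine finsum_congr fun d => ?_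
  have h1 : X ^ e ∣ σ ^ d - τ ^ d := h.trans (sub_dvd_pow_sub_pow _ _ d)
  have h2 := (X_pow_dvd_iff.1 h1) i hi
  rw [map_sub, sub_eq_zero] at h2
  rw [h2]

lemma dvd_cmp_sub_cmp' {f : ℂ⟦X⟧} {σ τ : ℂ⟦X⟧} (hσ : constantCoeff σ = 0)
    (hτ : constantCoeff τ = 0) {q e : ℕ} (hf : X ^ q ∣ f - C (constantCoeff f))
    (h : X ^ e ∣ σ - τ) : X ^ (e + q - 1) ∣ cmp f σ - cmp f τ := by
  rcases q with _ | q
  · exact (pow_dvd_pow X (by omega)).trans (dvd_cmp_sub_cmp f hσ hτ h)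
  obtain ⟨g, hg⟩ := hf
  have h1 : f = C (constantCoeff f) + X ^ (q + 1) * g := by rw [← hg]; ring
  have h2 : cmp f σ - cmp f τ = (σ ^ (q + 1) - τ ^ (q + 1)) * cmp g σ +
      τ ^ (q + 1) * (cmp g σ - cmp g τ) := by
    rw [h1, cmp_add hσ, cmp_add hτ, cmp_mul hσ, cmp_mul hτ, cmp_pow hσ, cmp_pow hτ, cmp_X hσ,
      cmp_X hτ, cmp_C, cmp_C]
    ring
  rw [h2]
  have h3 : X ^ (e + (q + 1) - 1) ∣ σ ^ (q + 1) - τ ^ (q + 1) := by
    obtain ⟨s, hs'⟩ := X_dvd_iff.2 hσ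
    obtain ⟨t, ht⟩ := X_dvd_iff.2 hτ
    have h4 : σ ^ (q + 1) - τ ^ (q + 1) =
        (∑ i ∈ Finset.range (q + 1), σ ^ i * τ ^ (q + 1 - 1 - i)) * (σ - τ) :=
      (Commute.geom_sum₂_mul (Commute.all σ τ) (q + 1)).symm
    rw [h4]
    have h5 : X ^ q ∣ ∑ i ∈ Finset.range (q + 1), σ ^ i * τ ^ (q + 1 - 1 - i) := by
      refine Finset.dvd_sum fun i hi => ?_
      rw [Finset.mem_range] at hi
      have h6 : (X : ℂ⟦X⟧) ^ q = X ^ i * X ^ (q + 1 - 1 - i) := by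
        rw [← pow_add]
        congr 1
        omega
      rw [h6]
      exact mul_dvd_mul (pow_dvd_pow_of_dvd (X_dvd_iff.2 hσ) _)
        (pow_dvd_pow_of_dvd (X_dvd_iff.2 hτ) _)
    have h7 : (X : ℂ⟦X⟧) ^ (e + (q + 1) - 1) = X ^ q * X ^ e := by
      rw [← pow_add]
      congr 1
      omega
    rw [h7]
    exact mul_dvd_mul h5 h
  refine dvd_add (dvd_mul_of_dvd_left h3 _) ?_
  have h7 : (X : ℂ⟦X⟧) ^ (e + (q + 1) - 1) ∣ X ^ (q + 1) * X ^ e := by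
    rw [← pow_add]
    exact pow_dvd_pow X (by omega)
  exact h7.trans (mul_dvd_mul (pow_dvd_pow_of_dvd (X_dvd_iff.2 hτ) _)
    (dvd_cmp_sub_cmp g hσ hτ h))

/-- the leading term of the difference of two compositions -/
lemma E_cmp_sub_cmp {f σ τ : ℂ⟦X⟧} (hσ : Inv1 σ) (hτ : Inv1 τ) (h1 : coeff 1 σ = coeff 1 τ)
    {q e : ℕ} (hf : E f (q + 1)) (he : E (σ - τ) e) : E (cmp f σ - cmp f τ) (q + e) := by
  obtain ⟨u, hu, rfl⟩ := E_iff.1 hf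
  obtain ⟨s, hs'⟩ := X_dvd_iff.2 hσ.1
  obtain ⟨t, ht⟩ := X_dvd_iff.2 hτ.1
  have hs1 : constantCoeff s = coeff 1 σ := by
    rw [hs']
    have h3 := coeff_X_pow_mul s 1 0
    rw [pow_one, zero_add] at h3
    rw [h3, coeff_zero_eq_constantCoeff_apply]
  have ht1 : constantCoeff t = coeff 1 σ := by
    rw [h1, ht]
    have h3 := coeff_X_pow_mul t 1 0
    rw [pow_one, zero_add] at h3
    rw [h3, coeff_zero_eq_constantCoeff_apply]
  have h2 : cmp (X ^ (q + 1) * u) σ - cmp (X ^ (q + 1) * u) τ =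
      (∑ i ∈ Finset.range (q + 1), σ ^ i * τ ^ (q + 1 - 1 - i)) * cmp u σ * (σ - τ) +
      τ ^ (q + 1) * (cmp u σ - cmp u τ) := by
    have h4 : σ ^ (q + 1) - τ ^ (q + 1) =
        (∑ i ∈ Finset.range (q + 1), σ ^ i * τ ^ (q + 1 - 1 - i)) * (σ - τ) :=
      (Commute.geom_sum₂_mul (Commute.all σ τ) (q + 1)).symm
    rw [cmp_mul hσ.1, cmp_mul hτ.1, cmp_pow hσ.1, cmp_pow hτ.1, cmp_X hσ.1, cmp_X hτ.1]
    calc σ ^ (q + 1) * cmp u σ - τ ^ (q + 1) * cmp u τ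
        = (σ ^ (q + 1) - τ ^ (q + 1)) * cmp u σ + τ ^ (q + 1) * (cmp u σ - cmp u τ) := by ring
      _ = _ := by rw [h4]; ring
  have h3 : E (∑ i ∈ Finset.range (q + 1), σ ^ i * τ ^ (q + 1 - 1 - i)) q := by
    rw [E_iff]
    refine ⟨∑ i ∈ Finset.range (q + 1), s ^ i * t ^ (q + 1 - 1 - i), ?_, ?_⟩
    · rw [isUnit_iff_constantCoeff, isUnit_iff_ne_zero, map_sum]
      have h5 : ∀ i ∈ Finset.range (q + 1), constantCoeff (s ^ i * t ^ (q + 1 - 1 - i)) =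
          coeff 1 σ ^ q := by
        intro i hi
        rw [Finset.mem_range] at hi
        rw [map_mul, map_pow, map_pow, hs1, ht1, ← pow_add]
        congr 1
        omega
      rw [Finset.sum_congr rfl h5, Finset.sum_const, Finset.card_range, nsmul_eq_mul]
      exact mul_ne_zero (by exact_mod_cast Nat.succ_ne_zero q) (pow_ne_zero _ hσ.2)
    · rw [Finset.mul_sum]
      refine Finset.sum_congr rfl fun i hi => ?_
      rw [Finset.mem_range] at hi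
      have h6 : (X : ℂ⟦X⟧) ^ q = X ^ i * X ^ (q + 1 - 1 - i) := by
        rw [← pow_add]
        congr 1
        omega
      rw [h6, hs', ht, mul_pow, mul_pow]
      ring
  have h4 : E (cmp u σ) 0 := by
    have h5 : E u 0 := by
      rw [E_iff]
      exact ⟨u, hu, by simp⟩
    exact h5.cmp hσ
  have h5 : E ((∑ i ∈ Finset.range (q + 1), σ ^ i * τ ^ (q + 1 - 1 - i)) * cmp u σ * (σ - τ))
      (q + e) := by
    have := (h3.mul h4).mul he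
    rwa [add_zero] at this
  rw [h2]
  refine h5.congr ?_
  rw [add_sub_cancel_left]
  have h6 : (X : ℂ⟦X⟧) ^ (q + e + 1) = X ^ (q + 1) * X ^ e := by
    rw [← pow_add]
    congr 1
    omega
  rw [h6]
  exact mul_dvd_mul (pow_dvd_pow_of_dvd (X_dvd_iff.2 hτ.1) _)
    (dvd_cmp_sub_cmp u hσ.1 hτ.1 he.1)

/-- **Uniqueness.** -/
lemma dvd_sub_of_cmp {f σ τ : ℂ⟦X⟧} (hσ : Inv1 σ) (hτ : Inv1 τ) (h1 : coeff 1 σ = coeff 1 τ)
    {q κ : ℕ} (hf : E (f - C (constantCoeff f)) (q + 1)) (h : X ^ κ ∣ cmp f σ - cmp f τ) :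
    X ^ (κ - q) ∣ σ - τ := by
  by_cases h0 : σ - τ = 0
  · rw [h0]
    exact dvd_zero _
  obtain ⟨e, he⟩ := exists_E h0
  have h2 : cmp f σ - cmp f τ = cmp (f - C (constantCoeff f)) σ -
      cmp (f - C (constantCoeff f)) τ := by
    rw [cmp_sub hσ.1, cmp_sub hτ.1, cmp_C, cmp_C]
    ring
  rw [h2] at h
  have h3 := (E_cmp_sub_cmp hσ hτ h1 hf he).dvd_le h
  exact (pow_dvd_pow X (by omega)).trans he.1

end Q178.Monster
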