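import Mathlib
import Pool.Agent.Q178.Monster.PS

/-!
# Roots of power series, and local coordinate changes
-/

set_option autoImplicit false

namespace Q178.Monster

open PowerSeries

/-- a power series with constant term `1` has an `m`-th root with constant term `1` -/
lemma exists_root_one {u : ℂ⟦X⟧} (hu : constantCoeff u = 1) {m : ℕ} (hm : m ≠ 0) :
    ∃ w : ℂ⟦X⟧, constantCoeff w = 1 ∧ w ^ m = u := by
  let b : ℂ⟦X⟧ := PowerSeries.binomialSeries ℂ ((m : ℚ)⁻¹ : ℚ)
  have hpow : ∀ j : ℕ, b ^ j = PowerSeries.binomialSeries ℂ ((j : ℚ) * (m : ℚ)⁻¹ : ℚ) := by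
    intro j
    induction j with
    | zero => simp
    | succ j ih =>
      rw [pow_succ, ih, ← binomialSeries_add]
      congr 1
      push_cast
      ring
  have hb : b ^ m = 1 + X := by
    rw [hpow, mul_inv_cancel₀ (by exact_mod_cast hm)]
    have := binomialSeries_nat (R := ℚ) (A := ℂ) 1
    simpa using this
  have h0 : constantCoeff (u - 1) = 0 := by simp [hu]
  refine ⟨cmp b (u - 1), ?_, ?_⟩
  · rw [constantCoeff_cmp h0]
    exact binomialSeries_constantCoeff _
  · rw [← cmp_pow h0, hb, cmp_add h0, cmp_X h0]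
    have : (1 : ℂ⟦X⟧) = C (1 : ℂ) := by simp
    rw [this, cmp_C]
    ring

/-- roots of series of positive order -/
lemma exists_root {f : ℂ⟦X⟧} {m : ℕ} (hm : m ≠ 0) (hf : E f m) {η : ℂ} (hη : η ^ m = coeff m f) :
    ∃ F : ℂ⟦X⟧, Inv1 F ∧ coeff 1 F = η ∧ F ^ m = f := by
  obtain ⟨u, hu, rfl⟩ := E_iff.1 hf
  have h1 : coeff m (X ^ m * u) = constantCoeff u := by
    have := coeff_X_pow_mul u m 0
    rw [zero_add] at this
    rw [this, coeff_zero_eq_constantCoeff_apply]
  rw [h1] at hη
  have hu0 : constantCoeff u ≠ 0 := by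
    rw [isUnit_iff_constantCoeff, isUnit_iff_ne_zero] at hu
    exact hu
  have hη0 : η ≠ 0 := by
    rintro rfl
    rw [zero_pow hm] at hη
    exact hu0 hη.symm
  obtain ⟨w, hw, hw'⟩ := exists_root_one (u := C (constantCoeff u)⁻¹ * u) (by simp [hu0]) hm
  have hc : coeff 1 (C η * (X * w)) = η := by
    have h3 := coeff_X_pow_mul w 1 0
    rw [pow_one, zero_add] at h3
    rw [coeff_C_mul, h3, coeff_zero_eq_constantCoeff_apply, hw, mul_one]
  refine ⟨C η * (X * w), ⟨by simp, by rw [hc]; exact hη0⟩, hc, ?_⟩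
  rw [mul_pow, mul_pow, hw', ← map_pow, hη]
  have h4 : C (constantCoeff u) * (X ^ m * (C (constantCoeff u)⁻¹ * u)) =
      (C (constantCoeff u) * C (constantCoeff u)⁻¹) * (X ^ m * u) := by ring
  rw [h4, ← map_mul, mul_inv_cancel₀ hu0]
  simp

/-- two series of the same positive order differ by a change of the variable; if they are close
then the change of variable can be chosen close to the identity -/
lemma exists_coord_change {f g : ℂ⟦X⟧} {m : ℕ} (hm : m ≠ 0) (hf : E f m) (hg : E g m) :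
    ∃ τ : ℂ⟦X⟧, Inv1 τ ∧ cmp f τ = g ∧ ∀ κ, m < κ → X ^ κ ∣ f - g → X ^ (κ + 1 - m) ∣ τ - X := by
  obtain ⟨η, hη⟩ := IsAlgClosed.exists_pow_nat_eq (coeff m f) (Nat.pos_of_ne_zero hm)
  have h1 : ∃ θ : ℂ, θ ^ m = coeff m g ∧ (coeff m f = coeff m g → θ = η) := by
    by_cases h : coeff m f = coeff m g
    · exact ⟨η, by rw [hη, h], fun _ => rfl⟩
    · obtain ⟨θ, hθ⟩ := IsAlgClosed.exists_pow_nat_eq (coeff m g) (Nat.pos_of_ne_zero hm)
      exact ⟨θ, hθ, fun h' => absurd h' h⟩
  obtain ⟨θ, hθ, hθη⟩ := h1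
  obtain ⟨F, hF, hF1, hFm⟩ := exists_root hm hf hη
  obtain ⟨G, hG, hG1, hGm⟩ := exists_root hm hg hθ
  obtain ⟨F', hF', hFF', hF'F⟩ := hF.exists_inv
  refine ⟨cmp F' G, hF'.cmp hG, ?_, ?_⟩
  · rw [← hFm, cmp_pow (hF'.cmp hG).1, ← cmp_assoc hF'.1 hG.1, hFF', cmp_X hG.1, hGm]
  · intro κ hκ h
    have h2 : coeff m f = coeff m g := by
      have := (X_pow_dvd_iff.1 h) m hκ
      rwa [map_sub, sub_eq_zero] at this
    have h3 := hθη h2
    have hX : X = cmp F' F := hF'F.symm
    -- `F - G` is small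
    have hFG : X ^ (κ + 1 - m) ∣ F - G := by
      obtain ⟨s, hs'⟩ := X_dvd_iff.2 hF.1
      obtain ⟨t, ht⟩ := X_dvd_iff.2 hG.1
      have hs1 : constantCoeff s = η := by
        rw [← hF1, hs']
        have h3 := coeff_X_pow_mul s 1 0
        rw [pow_one, zero_add] at h3
        rw [h3, coeff_zero_eq_constantCoeff_apply]
      have ht1 : constantCoeff t = η := by
        rw [← h3, ← hG1, ht]
        have h3 := coeff_X_pow_mul t 1 0
        rw [pow_one, zero_add] at h3
        rw [h3, coeff_zero_eq_constantCoeff_apply]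
      have hη0 : η ≠ 0 := by
        rw [← hF1]
        exact hF.2
      obtain ⟨q, rfl⟩ := Nat.exists_eq_succ_of_ne_zero hm
      have h4 : F ^ (q + 1) - G ^ (q + 1) = (F - G) *
          (∑ i ∈ Finset.range (q + 1), F ^ i * G ^ (q + 1 - 1 - i)) := by
        rw [mul_comm]
        exact (Commute.geom_sum₂_mul (Commute.all F G) (q + 1)).symm
      have h5 : E (∑ i ∈ Finset.range (q + 1), F ^ i * G ^ (q + 1 - 1 - i)) q := by
        rw [E_iff]
        refine ⟨∑ i ∈ Finset.range (q + 1), s ^ i * t ^ (q + 1 - 1 - i), ?_, ?_⟩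
        · rw [isUnit_iff_constantCoeff, isUnit_iff_ne_zero, map_sum]
          have h5 : ∀ i ∈ Finset.range (q + 1), constantCoeff (s ^ i * t ^ (q + 1 - 1 - i)) =
              η ^ q := by
            intro i hi
            rw [Finset.mem_range] at hi
            rw [map_mul, map_pow, map_pow, hs1, ht1, ← pow_add]
            congr 1
            omega
          rw [Finset.sum_congr rfl h5, Finset.sum_const, Finset.card_range, nsmul_eq_mul]
          exact mul_ne_zero (by exact_mod_cast Nat.succ_ne_zero q) (pow_ne_zero _ hη0)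
        · rw [Finset.mul_sum]
          refine Finset.sum_congr rfl fun i hi => ?_
          rw [Finset.mem_range] at hi
          have h6 : (X : ℂ⟦X⟧) ^ q = X ^ i * X ^ (q + 1 - 1 - i) := by
            rw [← pow_add]
            congr 1
            omega
          rw [h6, hs', ht, mul_pow, mul_pow]
          ring
      have h6 : X ^ κ ∣ (F - G) * (∑ i ∈ Finset.range (q + 1), F ^ i * G ^ (q + 1 - 1 - i)) := by
        rw [← h4]
        simp only [Nat.succ_eq_add_one] at hFm hGm
        rw [hFm, hGm]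
        exact h
      have h7 := h5.dvd_cancel h6
      have h8 : κ + 1 - (q + 1) = κ - q := by omega
      simp only [Nat.succ_eq_add_one]
      rw [h8]
      exact h7
    have h9 : cmp F' G - X = cmp F' G - cmp F' F := by rw [hF'F]
    rw [h9]
    refine dvd_cmp_sub_cmp F' hG.1 hF.1 ?_
    rw [← neg_sub, dvd_neg]
    exact hFG

end Q178.Monster
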