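import Mathlib
import Pool.Agent.Q178.Monster.Root

/-!
# Prolongation steps of tuples of power series
-/

set_option autoImplicit false

namespace Q178.Monster

open PowerSeries

variable {n : ℕ}

/-- one prolongation step in the chart `c`: the new functions are `θ_c` and `dθ_j / dθ_c` -/
structure StepRel (c : Fin n) (θ θ' : Fin n → ℂ⟦X⟧) : Prop where
  nz : dd (θ c) ≠ 0
  same : θ' c = θ c
  eq : ∀ j, j ≠ c → θ' j * dd (θ c) = dd (θ j)

lemma StepRel.dvd {c : Fin n} {θ θ' : Fin n → ℂ⟦X⟧} (h : StepRel c θ θ') {ν : ℕ}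
    (hν : E (dd (θ c)) ν) (j : Fin n) : X ^ ν ∣ dd (θ j) := by
  by_cases hj : j = c
  · rw [hj]
    exact hν.1
  · rw [← h.eq j hj]
    exact dvd_mul_of_dvd_right hν.1 _

lemma StepRel.unique {c : Fin n} {θ θ' θ'' : Fin n → ℂ⟦X⟧} (h : StepRel c θ θ')
    (h' : StepRel c θ θ'') : θ' = θ'' := by
  funext j
  by_cases hj : j = c
  · rw [hj, h.same, h'.same]
  · exact mul_right_cancel₀ h.nz ((h.eq j hj).trans (h'.eq j hj).symm)

lemma StepRel.compose {c : Fin n} {θ θ' : Fin n → ℂ⟦X⟧} (h : StepRel c θ θ') {σ : ℂ⟦X⟧}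
    (hσ : Inv1 σ) : StepRel c (fun j => cmp (θ j) σ) (fun j => cmp (θ' j) σ) := by
  constructor
  · obtain ⟨q, hq⟩ := exists_E h.nz
    rw [dd_cmp hσ.1]
    have := (hq.cmp hσ).mul hσ.dd
    exact this.ne_zero
  · rw [h.same]
  · intro j hj
    rw [dd_cmp hσ.1, dd_cmp hσ.1, ← h.eq j hj, cmp_mul hσ.1]
    ring

/-- two arcs which are close have close prolongations -/
lemma StepRel.close {c : Fin n} {θ θ' φ φ' : Fin n → ℂ⟦X⟧} (h : StepRel c θ θ')
    (h' : StepRel c φ φ') {ν a : ℕ} (hν : E (dd (θ c)) ν) (ha : ∀ j, X ^ a ∣ φ j - θ j)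
    (j : Fin n) (hj : j ≠ c) : X ^ (a - (ν + 1)) ∣ φ' j - θ' j := by
  rcases Nat.lt_or_ge (ν + 1) a with haν | haν
  swap
  · rw [Nat.sub_eq_zero_of_le haν, pow_zero]
    exact one_dvd _
  have hd : ∀ j, X ^ (a - 1) ∣ dd (φ j) - dd (θ j) := by
    intro j
    rw [← dd_sub]
    exact dvd_dd' (ha j)
  have hν' : E (dd (φ c)) ν := hν.congr ((pow_dvd_pow X (by omega)).trans (hd c))
  have h1 : (φ' j - θ' j) * (dd (φ c) * dd (θ c)) =
      (dd (φ j) - dd (θ j)) * dd (θ c) - dd (θ j) * (dd (φ c) - dd (θ c)) := by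
    rw [← h'.eq j hj, ← h.eq j hj]
    ring
  have h2 : X ^ (a - 1 + ν) ∣ (φ' j - θ' j) * (dd (φ c) * dd (θ c)) := by
    rw [h1]
    refine dvd_sub ?_ ?_
    · rw [pow_add]
      exact mul_dvd_mul (hd j) hν.1
    · rw [add_comm, pow_add]
      exact mul_dvd_mul (h.dvd hν j) (hd c)
  have h3 := (hν'.mul hν).dvd_cancel h2
  exact (pow_dvd_pow X (by omega)).trans h3

lemma exists_quot {f g : ℂ⟦X⟧} {q : ℕ} (hg : E g q) (hf : X ^ q ∣ f) : ∃ h, h * g = f := by
  obtain ⟨u, hu, rfl⟩ := E_iff.1 hg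
  obtain ⟨f', rfl⟩ := hf
  obtain ⟨v, hv⟩ := hu.exists_right_inv
  refine ⟨f' * v, ?_⟩
  calc f' * v * (X ^ q * u) = X ^ q * f' * (u * v) := by ring
    _ = _ := by rw [hv, mul_one]

/-- first order perturbations of an arc prolong to first order perturbations -/
lemma StepRel.up {c : Fin n} {θ θ' : Fin n → ℂ⟦X⟧} (h : StepRel c θ θ') {ν a : ℕ}
    (hν : E (dd (θ c)) ν) (ha : ν + 2 ≤ a) (P : Fin n → ℂ⟦X⟧) (hP : ∀ j, X ^ a ∣ P j) :
    ∃ P' : Fin n → ℂ⟦X⟧, (∀ j, X ^ (a - (ν + 1)) ∣ P' j) ∧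
      ∀ (ε : ℂ) (φ : Fin n → ℂ⟦X⟧), (∀ j, X ^ (a + 1) ∣ φ j - (θ j + C ε * P j)) →
        ∃ φ' : Fin n → ℂ⟦X⟧, StepRel c φ φ' ∧
          (∀ j, X ^ (a - (ν + 1) + 1) ∣ φ' j - (θ' j + C ε * P' j)) := by
  classical
  have hPd : ∀ j, X ^ (a - 1) ∣ dd (P j) := fun j => dvd_dd' (hP j)
  -- the new perturbation
  have hN : ∀ j, X ^ (a - 1 + ν) ∣ dd (P j) * dd (θ c) - dd (θ j) * dd (P c) := by
    intro j
    refine dvd_sub ?_ ?_
    · rw [pow_add]
      exact mul_dvd_mul (hPd j) hν.1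
    · rw [add_comm, pow_add]
      exact mul_dvd_mul (h.dvd hν j) (hPd c)
  have hQ : ∀ j, ∃ Q : ℂ⟦X⟧, Q * (dd (θ c) * dd (θ c)) =
      dd (P j) * dd (θ c) - dd (θ j) * dd (P c) := fun j =>
    exists_quot (hν.mul hν) ((pow_dvd_pow X (by omega)).trans (hN j))
  choose Q hQ using hQ
  have hQd : ∀ j, X ^ (a - (ν + 1)) ∣ Q j := by
    intro j
    have h1 : X ^ (a - 1 + ν) ∣ Q j * (dd (θ c) * dd (θ c)) := by
      rw [hQ j]
      exact hN j
    exact (pow_dvd_pow X (by omega)).trans ((hν.mul hν).dvd_cancel h1)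
  refine ⟨fun j => if j = c then 0 else Q j, ?_, ?_⟩
  · intro j
    by_cases hj : j = c
    · simp [hj]
    · simp only [if_neg hj]
      exact hQd j
  intro ε φ hφ
  have hR : ∀ j, X ^ a ∣ dd (φ j) - (dd (θ j) + C ε * dd (P j)) := by
    intro j
    have h1 := dvd_dd (hφ j)
    rwa [dd_sub, dd_add, dd_C_mul] at h1
  have hν' : E (dd (φ c)) ν := by
    refine hν.congr ?_
    have h1 : dd (φ c) - dd (θ c) = (dd (φ c) - (dd (θ c) + C ε * dd (P c))) +
        C ε * dd (P c) := by ring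
    rw [h1]
    exact dvd_add ((pow_dvd_pow X (by omega)).trans (hR c))
      (dvd_mul_of_dvd_right ((pow_dvd_pow X (by omega)).trans (hPd c)) _)
  have hφd : ∀ j, X ^ ν ∣ dd (φ j) := by
    intro j
    have h1 : dd (φ j) = (dd (φ j) - (dd (θ j) + C ε * dd (P j))) + dd (θ j) +
        C ε * dd (P j) := by ring
    rw [h1]
    exact dvd_add (dvd_add ((pow_dvd_pow X (by omega)).trans (hR j)) (h.dvd hν j))
      (dvd_mul_of_dvd_right ((pow_dvd_pow X (by omega)).trans (hPd j)) _)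
  have hex : ∀ j, ∃ ψ : ℂ⟦X⟧, ψ * dd (φ c) = dd (φ j) := fun j => exists_quot hν' (hφd j)
  choose ψ hψ using hex
  refine ⟨fun j => if j = c then φ c else ψ j, ⟨hν'.ne_zero, if_pos rfl, ?_⟩, ?_⟩
  · intro j hj
    simp only [if_neg hj]
    exact hψ j
  intro j
  by_cases hj : j = c
  · subst hj
    simp only [if_true]
    rw [h.same, mul_zero, add_zero]
    have h1 : φ j - θ j = (φ j - (θ j + C ε * P j)) + C ε * P j := by ring
    rw [h1]
    exact dvd_add ((pow_dvd_pow X (by omega)).trans (hφ j))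
      (dvd_mul_of_dvd_right ((pow_dvd_pow X (by omega)).trans (hP j)) _)
  · simp only [if_neg hj]
    have h1 : (ψ j - (θ' j + C ε * Q j)) * (dd (φ c) * dd (θ c)) =
        ((dd (φ j) - (dd (θ j) + C ε * dd (P j))) * dd (θ c) -
          dd (θ j) * (dd (φ c) - (dd (θ c) + C ε * dd (P c)))) -
        C ε * (Q j * (C ε * dd (P c) + (dd (φ c) - (dd (θ c) + C ε * dd (P c)))) *
          dd (θ c)) := by
      have e1 := hψ j
      have e2 := h.eq j hj
      have e3 := hQ j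
      linear_combination (dd (θ c)) * e1 - (dd (φ c)) * e2 - C ε * e3
    have h2 : X ^ (a + ν) ∣ (ψ j - (θ' j + C ε * Q j)) * (dd (φ c) * dd (θ c)) := by
      rw [h1]
      refine dvd_sub (dvd_sub ?_ ?_) (dvd_mul_of_dvd_right ?_ _)
      · rw [pow_add]
        exact mul_dvd_mul (hR j) hν.1
      · rw [add_comm, pow_add]
        exact mul_dvd_mul (h.dvd hν j) (hR c)
      · have h3 : (X : ℂ⟦X⟧) ^ (a + ν) ∣ X ^ (a - (ν + 1)) * X ^ (a - 1) * X ^ ν := by
          rw [← pow_add, ← pow_add]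
          exact pow_dvd_pow X (by omega)
        refine h3.trans (mul_dvd_mul (mul_dvd_mul (hQd j) ?_) hν.1)
        exact dvd_add (dvd_mul_of_dvd_right (hPd c) _)
          ((pow_dvd_pow X (by omega)).trans (hR c))
    have h3 := (hν'.mul hν).dvd_cancel h2
    exact (pow_dvd_pow X (by omega)).trans h3

/-- **Going down.** If the prolongations of two arcs have contact `κ` (after a change of the
parameter), then the arcs themselves have contact at least `κ + m'`, where `m'` is the multiplicity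
of the prolongations. -/
lemma StepRel.down {c : Fin n} {θ θ' φ φ' : Fin n → ℂ⟦X⟧} (h : StepRel c θ θ')
    (h' : StepRel c φ φ') {ν m' κ : ℕ} (hν : E (dd (θ c)) ν) (hν' : E (dd (φ c)) ν)
    (hm' : m' ≤ ν + 1) (hconst : ∀ j, constantCoeff (φ j) = constantCoeff (θ j))
    (hθ' : ∀ j, X ^ m' ∣ θ' j - C (constantCoeff (θ' j)))
    (hφ' : ∀ j, X ^ m' ∣ φ' j - C (constantCoeff (φ' j))) (hκ : 1 ≤ κ)
    {σ : ℂ⟦X⟧} (hσ : Inv1 σ) (hclose : ∀ j, X ^ κ ∣ cmp (φ' j) σ - θ' j) :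
    ∃ σ' : ℂ⟦X⟧, Inv1 σ' ∧ ∀ j, X ^ (κ + m') ∣ cmp (φ j) σ' - θ j := by
  -- exact orders of the chart coordinate
  have hφc : E (φ c - C (constantCoeff (φ c))) (ν + 1) := by
    refine E_of_dd (by simp) ?_
    have : dd (φ c - C (constantCoeff (φ c))) = dd (φ c) := by
      ext i
      rw [coeff_dd, coeff_dd, map_sub]
      simp [coeff_C]
    rwa [this]
  have hθc : E (θ c - C (constantCoeff (θ c))) (ν + 1) := by
    refine E_of_dd (by simp) ?_
    have : dd (θ c - C (constantCoeff (θ c))) = dd (θ c) := by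
      ext i
      rw [coeff_dd, coeff_dd, map_sub]
      simp [coeff_C]
    rwa [this]
  obtain ⟨τ, hτ, hτc, hτclose⟩ := exists_coord_change (Nat.succ_ne_zero ν) (hφc.cmp hσ) hθc
  have hσ' : Inv1 (cmp σ τ) := hσ.cmp hτ
  have hc : cmp (φ c) (cmp σ τ) = θ c := by
    rw [cmp_assoc hσ.1 hτ.1, cmp_sub hσ'.1, cmp_C, hconst c] at hτc
    exact sub_left_injective hτc
  refine ⟨cmp σ τ, hσ', fun j => ?_⟩
  by_cases hj : j = c
  · rw [hj, hc, sub_self]
    exact dvd_zero _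
  -- constants upstairs
  have hconst' : constantCoeff (φ' j) = constantCoeff (θ' j) := by
    have h1 := (X_pow_dvd_iff.1 (hclose j)) 0 (by omega)
    rw [coeff_zero_eq_constantCoeff_apply, map_sub, constantCoeff_cmp hσ.1, sub_eq_zero] at h1
    exact h1
  have hup : X ^ (κ + m' - (ν + 1)) ∣ cmp (φ' j) (cmp σ τ) - θ' j := by
    rcases Nat.lt_or_ge (ν + 1) κ with hlt | hge
    · have h1 : X ^ κ ∣ cmp (φ c - C (constantCoeff (φ c))) σ -
          (θ c - C (constantCoeff (θ c))) := by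
        have h2 : cmp (φ c - C (constantCoeff (φ c))) σ - (θ c - C (constantCoeff (θ c))) =
            cmp (φ' c) σ - θ' c := by
          rw [cmp_sub hσ.1, cmp_C, h.same, h'.same, hconst c]
          ring
        rw [h2]
        exact hclose c
      have h2 := hτclose κ hlt h1
      have h3 : cmp (φ' j) (cmp σ τ) - θ' j = (cmp (cmp (φ' j) σ) τ - cmp (cmp (φ' j) σ) X) +
          (cmp (φ' j) σ - θ' j) := by
        rw [X_cmp, cmp_assoc hσ.1 hτ.1]
        ring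
      rw [h3]
      refine dvd_add ?_ ((pow_dvd_pow X (by omega)).trans (hclose j))
      have h4 : X ^ m' ∣ cmp (φ' j) σ - C (constantCoeff (cmp (φ' j) σ)) := by
        rw [constantCoeff_cmp hσ.1]
        have h5 := dvd_cmp hσ.1 (hφ' j)
        rwa [cmp_sub hσ.1, cmp_C] at h5
      exact (pow_dvd_pow X (by omega)).trans (dvd_cmp_sub_cmp' hτ.1 inv1_X.1 h4 h2)
    · have h1 : X ^ m' ∣ cmp (φ' j) (cmp σ τ) - C (constantCoeff (φ' j)) := by
        have h5 := dvd_cmp hσ'.1 (hφ' j)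
        rwa [cmp_sub hσ'.1, cmp_C] at h5
      have h2 : cmp (φ' j) (cmp σ τ) - θ' j =
          (cmp (φ' j) (cmp σ τ) - C (constantCoeff (φ' j))) -
          (θ' j - C (constantCoeff (θ' j))) := by
        rw [hconst']
        ring
      rw [h2]
      exact (pow_dvd_pow X (by omega)).trans (dvd_sub h1 (hθ' j))
  have hdd : dd (cmp (φ j) (cmp σ τ) - θ j) =
      (cmp (φ' j) (cmp σ τ) - θ' j) * dd (θ c) := by
    rw [dd_sub, dd_cmp hσ'.1, ← h'.eq j hj, ← h.eq j hj, cmp_mul hσ'.1, mul_assoc,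
      ← dd_cmp hσ'.1, hc]
    ring
  have h0 : constantCoeff (cmp (φ j) (cmp σ τ) - θ j) = 0 := by
    rw [map_sub, constantCoeff_cmp hσ'.1, hconst j, sub_self]
  have h6 : X ^ (κ + m' - (ν + 1) + ν) ∣ dd (cmp (φ j) (cmp σ τ) - θ j) := by
    rw [hdd, pow_add]
    exact mul_dvd_mul hup hν.1
  exact (pow_dvd_pow X (by omega)).trans (dvd_of_dd h0 h6)

/-- **Integration.** -/
lemma StepRel.integrate {c : Fin n} {θ θ' : Fin n → ℂ⟦X⟧} (_h : StepRel c θ θ')
    (φ' : Fin n → ℂ⟦X⟧) (hφ' : dd (φ' c) ≠ 0) :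
    ∃ φ : Fin n → ℂ⟦X⟧, StepRel c φ φ' ∧ ∀ j, j ≠ c → constantCoeff (φ j) = constantCoeff (θ j) := by
  classical
  refine ⟨fun j => if j = c then φ' c else C (constantCoeff (θ j)) + prim (φ' j * dd (φ' c)),
    ⟨by simpa using hφ', by simp, ?_⟩, ?_⟩
  · intro j hj
    simp only [if_neg hj, if_true]
    rw [dd_add, dd_prim]
    have : dd (C (constantCoeff (θ j))) = 0 := by
      ext i
      rw [coeff_dd]
      simp
    rw [this, zero_add]
  · intro j hj
    simp only [if_neg hj]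
    rw [map_add, constantCoeff_prim]
    simp

/-- **Rigidity.** -/
lemma rigidity {f h D : ℂ⟦X⟧} {q μ b κ : ℕ} (hf : E (f - C (constantCoeff f)) (q + 1))
    (hh : X ^ μ ∣ h - C (constantCoeff h)) (hD : E D b) (hκ : b + 1 + (q + 1) ≤ κ + μ)
    {S : Set ℂ} (hS : S.Infinite)
    (H : ∀ ε ∈ S, ∃ σ : ℂ⟦X⟧, Inv1 σ ∧ X ^ κ ∣ cmp f σ - f ∧
      X ^ (b + 1) ∣ cmp (h + C ε * D) σ - h) : False := by
  classical
  rcases Nat.lt_or_ge (q + 1) κ with hlt | hge
  · choose! s hs1 hs2 hs3 using H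
    have hmap : Set.MapsTo (fun ε => coeff 1 (s ε)) S {z : ℂ | z ^ (q + 1) = 1} := by
      intro ε hε
      have h1 := (X_pow_dvd_iff.1 (hs2 ε hε)) (q + 1) hlt
      have h2 : cmp f (s ε) - f = cmp (f - C (constantCoeff f)) (s ε) -
          (f - C (constantCoeff f)) := by
        rw [cmp_sub (hs1 ε hε).1, cmp_C]
        ring
      rw [h2, map_sub, coeff_cmp_of_dvd (hs1 ε hε).1 hf.1] at h1
      have h3 : coeff (q + 1) (f - C (constantCoeff f)) * (coeff 1 (s ε) ^ (q + 1) - 1) = 0 := by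
        linear_combination h1
      rcases mul_eq_zero.1 h3 with h4 | h4
      · exact absurd h4 hf.2
      · exact sub_eq_zero.1 h4
    have hfin : {z : ℂ | z ^ (q + 1) = 1}.Finite := by
      refine (Polynomial.nthRoots (q + 1) (1 : ℂ)).toFinset.finite_toSet.subset ?_
      intro z hz
      simp only [Finset.mem_coe, Multiset.mem_toFinset]
      rw [Polynomial.mem_nthRoots (Nat.succ_pos q)]
      exact hz
    obtain ⟨ε, hε, ε', hε', hne, heq⟩ := hS.exists_ne_map_eq_of_mapsTo hmap hfin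
    have heq' : coeff 1 (s ε) = coeff 1 (s ε') := heq
    have h1 : X ^ κ ∣ cmp f (s ε) - cmp f (s ε') := by
      have : cmp f (s ε) - cmp f (s ε') = (cmp f (s ε) - f) - (cmp f (s ε') - f) := by ring
      rw [this]
      exact dvd_sub (hs2 ε hε) (hs2 ε' hε')
    have h2 := dvd_sub_of_cmp (hs1 ε hε) (hs1 ε' hε') heq' hf h1
    have h3 := dvd_cmp_sub_cmp' (hs1 ε hε).1 (hs1 ε' hε').1 hh h2
    have h4 : X ^ (b + 1) ∣ C ε * cmp D (s ε) - C ε' * cmp D (s ε') := by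
      have h5 : C ε * cmp D (s ε) - C ε' * cmp D (s ε') =
          (cmp (h + C ε * D) (s ε) - h) - (cmp (h + C ε' * D) (s ε') - h) -
          (cmp h (s ε) - cmp h (s ε')) := by
        rw [cmp_add (hs1 ε hε).1, cmp_add (hs1 ε' hε').1, cmp_mul (hs1 ε hε).1,
          cmp_mul (hs1 ε' hε').1, cmp_C, cmp_C]
        ring
      rw [h5]
      exact dvd_sub (dvd_sub (hs3 ε hε) (hs3 ε' hε')) ((pow_dvd_pow X (by omega)).trans h3)
    have h5 := (X_pow_dvd_iff.1 h4) b (by omega)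
    rw [map_sub, coeff_C_mul, coeff_C_mul, coeff_cmp_of_dvd (hs1 ε hε).1 hD.1,
      coeff_cmp_of_dvd (hs1 ε' hε').1 hD.1, heq'] at h5
    have h6 : (ε - ε') * (coeff b D * coeff 1 (s ε') ^ b) = 0 := by linear_combination h5
    rcases mul_eq_zero.1 h6 with h7 | h7
    · exact hne (sub_eq_zero.1 h7)
    · exact (mul_ne_zero hD.2 (pow_ne_zero _ (hs1 ε' hε').2)) h7
  · obtain ⟨ε, hε, hε0⟩ := hS.exists_notMem_finite (Set.finite_singleton (0 : ℂ))
    obtain ⟨σ, hσ, -, h3⟩ := H ε hε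
    have h1 : X ^ (b + 1) ∣ cmp h σ - h := by
      have h2 : cmp h σ - h = cmp (h - C (constantCoeff h)) σ - (h - C (constantCoeff h)) := by
        rw [cmp_sub hσ.1, cmp_C]
        ring
      rw [h2]
      exact (pow_dvd_pow X (by omega)).trans (dvd_sub (dvd_cmp hσ.1 hh) hh)
    have h4 : X ^ (b + 1) ∣ C ε * cmp D σ := by
      have h5 : C ε * cmp D σ = (cmp (h + C ε * D) σ - h) - (cmp h σ - h) := by
        rw [cmp_add hσ.1, cmp_mul hσ.1, cmp_C]
        ring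
      rw [h5]
      exact dvd_sub h3 h1
    have h5 := (X_pow_dvd_iff.1 h4) b (by omega)
    rw [coeff_C_mul, coeff_cmp_of_dvd hσ.1 hD.1] at h5
    exact mul_ne_zero hε0 (mul_ne_zero hD.2 (pow_ne_zero _ hσ.2)) h5

end Q178.Monster
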