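import Mathlib
import Pool.Agent.Q178.Monster.Defs
import Pool.Agent.Q178.Monster.Steps

/-!
# Basic facts on prolongations
-/

set_option autoImplicit false

namespace Q178.Monster

open PowerSeries LinearAlgebra.Projectivization

open scoped LinearAlgebra.Projectivization

variable {n : ℕ}

lemma Arc.coeff_of_lt (A : Arc n) {q : ℕ} (hq : q < A.velOrder) (j : Fin n) :
    coeff q (dd (A.coord j)) = 0 := by
  by_contra h
  exact Nat.notMem_of_lt_sInf hq ⟨j, h⟩

lemma Arc.dvd_dd (A : Arc n) (j : Fin n) : X ^ A.velOrder ∣ dd (A.coord j) := by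
  rw [X_pow_dvd_iff]
  exact fun q hq => A.coeff_of_lt hq j

lemma Arc.velOrder_le (A : Arc n) {q : ℕ} {j : Fin n} (h : coeff q (dd (A.coord j)) ≠ 0) :
    A.velOrder ≤ q := by
  by_contra hlt
  exact h (A.coeff_of_lt (by omega) j)

lemma Arc.E_of_vel (A : Arc n) {j : Fin n} (h : A.vel j ≠ 0) : E (dd (A.coord j)) A.velOrder :=
  ⟨A.dvd_dd j, h⟩

lemma rep_zero_iff (A : Arc n) (a : Fin n) : A.tangentLine.rep a = 0 ↔ A.vel a = 0 := by
  obtain ⟨u, hu⟩ := Projectivization.exists_smul_eq_mk_rep ℂ A.vel A.vel_ne_zero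
  have h1 : A.tangentLine.rep = u • A.vel := hu.symm
  rw [h1]
  simp [Units.smul_def]

lemma rep_chartIndex_ne_zero (prev : Option (Fin n)) (ℓ : ℙ ℂ (Fin n → ℂ)) :
    ℓ.rep (chartIndex prev ℓ) ≠ 0 := by
  unfold chartIndex
  split_ifs with h
  · exact h.choose_spec.2
  · exact (exists_rep_ne_zero ℓ).choose_spec

lemma chartIndex_eq {c : Fin n} {ℓ : ℙ ℂ (Fin n → ℂ)} (h : ℓ.rep c ≠ 0) :
    chartIndex (some c) ℓ = c := by
  have h1 : ∃ c', some c = some c' ∧ ℓ.rep c' ≠ 0 := ⟨c, rfl, h⟩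
  unfold chartIndex
  rw [dif_pos h1]
  exact (Option.some_injective _ h1.choose_spec.1).symm

lemma quot_mul {f g : ℂ⟦X⟧} (h : g ∣ f) : quot f g * g = f := by
  unfold quot
  rw [dif_pos h, mul_comm]
  exact h.choose_spec.symm

lemma E.dvd {f g : ℂ⟦X⟧} {q : ℕ} (hg : E g q) (hf : X ^ q ∣ f) : g ∣ f := by
  obtain ⟨h, hh⟩ := exists_quot hg hf
  exact ⟨h, by rw [← hh, mul_comm]⟩

lemma Arc.prolong_step (A : Arc n) {c : Fin n} (hc : A.vel c ≠ 0) :
    StepRel c A.coord (A.prolong c).coord := by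
  have hE := A.E_of_vel hc
  have h0 : d⁄dX ℂ (A.coord c) ≠ 0 := hE.ne_zero
  unfold Arc.prolong
  rw [dif_pos h0]
  refine ⟨h0, by simp, fun j hj => ?_⟩
  simp only [if_neg hj]
  exact quot_mul (hE.dvd (A.dvd_dd j))

/-- the chart index used between the levels `i` and `i + 1` along `γ` -/
noncomputable def Arc.ci (γ : Arc n) (i : ℕ) : Fin n :=
  chartIndex (chart (γ.lift i).1) (γ.lift i).2.tangentLine

/-- the active coordinates of `γⁱ` -/
noncomputable def Arc.th (γ : Arc n) (i : ℕ) : Fin n → ℂ⟦X⟧ := (γ.lift i).2.coord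

/-- multiplicity minus one of `γⁱ` -/
noncomputable def Arc.nu (γ : Arc n) (i : ℕ) : ℕ := (γ.lift i).2.velOrder

lemma Arc.vel_ci (γ : Arc n) (i : ℕ) : (γ.lift i).2.vel (γ.ci i) ≠ 0 := fun h =>
  rep_chartIndex_ne_zero _ _ ((rep_zero_iff _ _).2 h)

lemma Arc.th_zero (γ : Arc n) : γ.th 0 = γ.coord := rfl

lemma Arc.step (γ : Arc n) (i : ℕ) : StepRel (γ.ci i) (γ.th i) (γ.th (i + 1)) :=
  (γ.lift i).2.prolong_step (γ.vel_ci i)

lemma Arc.E_ci (γ : Arc n) (i : ℕ) : E (dd (γ.th i (γ.ci i))) (γ.nu i) :=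
  (γ.lift i).2.E_of_vel (γ.vel_ci i)

lemma Arc.nu_dvd (γ : Arc n) (i : ℕ) (j : Fin n) : X ^ γ.nu i ∣ dd (γ.th i j) :=
  (γ.lift i).2.dvd_dd j

lemma Arc.nu_le (γ : Arc n) {i q : ℕ} {j : Fin n} (h : coeff q (dd (γ.th i j)) ≠ 0) :
    γ.nu i ≤ q :=
  (γ.lift i).2.velOrder_le h

lemma Arc.nu_succ_le (γ : Arc n) (i : ℕ) : γ.nu (i + 1) ≤ γ.nu i := by
  apply γ.nu_le (j := γ.ci i)
  rw [(γ.step i).same]
  exact (γ.E_ci i).2

lemma Arc.chart_succ (γ : Arc n) (i : ℕ) : chart (γ.lift (i + 1)).1 = some (γ.ci i) := rfl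

/-- the chart index is kept as long as possible -/
lemma Arc.ci_succ (γ : Arc n) (i : ℕ) (h : γ.nu (i + 1) = γ.nu i) : γ.ci (i + 1) = γ.ci i := by
  have h1 : (γ.lift (i + 1)).2.tangentLine.rep (γ.ci i) ≠ 0 := by
    rw [Ne, rep_zero_iff]
    change coeff (γ.nu (i + 1)) (dd (γ.th (i + 1) (γ.ci i))) ≠ 0
    rw [(γ.step i).same, h]
    exact (γ.E_ci i).2
  exact chartIndex_eq h1

lemma Arc.mem_crit_succ (γ : Arc n) (i : ℕ) (a : Fin n) :
    a ∈ crit (γ.lift (i + 1)).1 ↔
      a = γ.ci i ∨ (a ∈ crit (γ.lift i).1 ∧ coeff (γ.nu i) (dd (γ.th i a)) = 0) := by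
  change (a = γ.ci i ∨ (a ∈ crit (γ.lift i).1 ∧ (γ.lift i).2.tangentLine.rep a = 0)) ↔ _
  rw [rep_zero_iff]
  rfl

lemma Arc.dvd_sub_const (γ : Arc n) (i : ℕ) (j : Fin n) :
    X ^ (γ.nu i + 1) ∣ γ.th i j - C (constantCoeff (γ.th i j)) := by
  refine dvd_of_dd (by simp) ?_
  have : dd (γ.th i j - C (constantCoeff (γ.th i j))) = dd (γ.th i j) := by
    rw [dd_sub]
    have : dd (C (constantCoeff (γ.th i j))) = 0 := by
      ext i
      rw [coeff_dd]
      simp
    rw [this, sub_zero]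
  rw [this]
  exact γ.nu_dvd i j

/-- the ratios of the velocities are the values of the next active coordinates -/
lemma StepRel.coeff_eq {c : Fin n} {θ θ' : Fin n → ℂ⟦X⟧} (h : StepRel c θ θ') {ν : ℕ}
    (hν : E (dd (θ c)) ν) {j : Fin n} (hj : j ≠ c) :
    coeff ν (dd (θ j)) = constantCoeff (θ' j) * coeff ν (dd (θ c)) := by
  obtain ⟨u, hu, hu'⟩ := E_iff.1 hν
  rw [← h.eq j hj, hu']
  have h1 := coeff_X_pow_mul u ν 0
  have h2 := coeff_X_pow_mul (θ' j * u) ν 0
  rw [zero_add] at h1 h2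
  have h3 : θ' j * (X ^ ν * u) = X ^ ν * (θ' j * u) := by ring
  rw [h3, h1, h2]
  simp [coeff_zero_eq_constantCoeff_apply]

lemma velOrder_eq {A : Arc n} {c : Fin n} {θ' : Fin n → ℂ⟦X⟧} (h : StepRel c A.coord θ') :
    E (dd (A.coord c)) A.velOrder := by
  obtain ⟨q, hq⟩ := exists_E h.nz
  have h1 : A.velOrder ≤ q := A.velOrder_le hq.2
  obtain ⟨j, hj⟩ := A.vel_spec
  have h2 : E (dd (A.coord j)) A.velOrder := A.E_of_vel hj
  have h3 : q ≤ A.velOrder := h2.dvd_le (h.dvd hq j)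
  have h4 : A.velOrder = q := le_antisymm h1 h3
  rw [h4]
  exact hq

lemma vel_eq {A : Arc n} {c : Fin n} {θ' : Fin n → ℂ⟦X⟧} (h : StepRel c A.coord θ')
    (j : Fin n) :
    A.vel j = A.vel c * (if j = c then 1 else constantCoeff (θ' j)) := by
  by_cases hj : j = c
  · rw [if_pos hj, hj, mul_one]
  · rw [if_neg hj, mul_comm]
    exact h.coeff_eq (velOrder_eq h) hj

/-- two arcs have the same tangent line if and only if their prolongations in one chart have
the same values -/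
lemma tangentLine_eq_iff {A B : Arc n} {c : Fin n} {θ' φ' : Fin n → ℂ⟦X⟧}
    (h : StepRel c A.coord θ') (h' : StepRel c B.coord φ') :
    A.tangentLine = B.tangentLine ↔
      ∀ j, j ≠ c → constantCoeff (θ' j) = constantCoeff (φ' j) := by
  have hA : A.vel c ≠ 0 := (velOrder_eq h).2
  have hB : B.vel c ≠ 0 := (velOrder_eq h').2
  unfold Arc.tangentLine
  rw [Projectivization.mk_eq_mk_iff']
  constructor
  · rintro ⟨a, ha⟩ j hj
    have h1 := congrFun ha j
    have h2 := congrFun ha c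
    simp only [Pi.smul_apply, smul_eq_mul] at h1 h2
    rw [vel_eq h j, vel_eq h' j, if_neg hj, if_neg hj] at h1
    rw [← h2] at h1 hA
    have h3 : a * B.vel c * (constantCoeff (φ' j) - constantCoeff (θ' j)) = 0 := by
      linear_combination h1
    rcases mul_eq_zero.1 h3 with h4 | h4
    · exact absurd h4 hA
    · exact (sub_eq_zero.1 h4).symm
  · intro H
    refine ⟨A.vel c / B.vel c, ?_⟩
    funext j
    simp only [Pi.smul_apply, smul_eq_mul]
    rw [vel_eq h j, vel_eq h' j]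
    by_cases hj : j = c
    · simp only [if_pos hj]
      field_simp
    · simp only [if_neg hj, H j hj]
      field_simp

/-- **Recognizing the prolongations of an arc.** -/
lemma lift_of_steps (γ δ : Arc n) (k : ℕ) (φ : ℕ → Fin n → ℂ⟦X⟧) (h0 : δ.coord = φ 0)
    (hs : ∀ i < k, StepRel (γ.ci i) (φ i) (φ (i + 1)))
    (hc : ∀ i ≤ k, ∀ j, constantCoeff (φ i j) = constantCoeff (γ.th i j)) :
    ∀ i ≤ k, (δ.lift i).1 = (γ.lift i).1 ∧ δ.th i = φ i := by
  intro i
  induction i with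
  | zero =>
    intro _
    refine ⟨?_, h0⟩
    funext j
    change constantCoeff (δ.coord j) = constantCoeff (γ.coord j)
    rw [h0]
    exact hc 0 (Nat.zero_le k) j
  | succ i ih =>
    intro hi
    obtain ⟨ih1, ih2⟩ := ih (by omega)
    have hstep : StepRel (γ.ci i) (δ.lift i).2.coord (φ (i + 1)) := by
      have h1 : (δ.lift i).2.coord = φ i := ih2
      rw [h1]
      exact hs i (by omega)
    have hline : (δ.lift i).2.tangentLine = (γ.lift i).2.tangentLine := by
      rw [tangentLine_eq_iff hstep (γ.step i)]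
      exact fun j _ => hc (i + 1) hi j
    have hci : δ.ci i = γ.ci i := by
      unfold Arc.ci
      rw [ih1, hline]
    refine ⟨?_, ?_⟩
    · change ((δ.lift i).1, (δ.lift i).2.tangentLine) = ((γ.lift i).1, (γ.lift i).2.tangentLine)
      rw [ih1, hline]
    · have h1 := δ.step i
      rw [hci] at h1
      exact h1.unique hstep

/-- consequences of `γᵏ(0) = δᵏ(0)` -/
lemma same_point {γ δ : Arc n} {k : ℕ} (h : (δ.lift k).1 = (γ.lift k).1) :
    (∀ i ≤ k, (δ.lift i).1 = (γ.lift i).1) ∧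
    (∀ i < k, (δ.lift i).2.tangentLine = (γ.lift i).2.tangentLine) ∧
    (∀ i < k, δ.ci i = γ.ci i) ∧
    (∀ i ≤ k, ∀ j, constantCoeff (δ.th i j) = constantCoeff (γ.th i j)) := by
  have key : ∀ d i, i + d = k → (δ.lift i).1 = (γ.lift i).1 := by
    intro d
    induction d with
    | zero =>
      intro i hi
      have : i = k := by omega
      rw [this]
      exact h
    | succ d ih =>
      intro i hi
      have h1 : ((δ.lift i).1, (δ.lift i).2.tangentLine) =
          ((γ.lift i).1, (γ.lift i).2.tangentLine) := ih (i + 1) (by omega)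
      exact (Prod.mk.inj h1).1
  have h1 : ∀ i ≤ k, (δ.lift i).1 = (γ.lift i).1 := fun i hi => key (k - i) i (by omega)
  have h2 : ∀ i < k, (δ.lift i).2.tangentLine = (γ.lift i).2.tangentLine := by
    intro i hi
    have h5 : ((δ.lift i).1, (δ.lift i).2.tangentLine) =
        ((γ.lift i).1, (γ.lift i).2.tangentLine) := h1 (i + 1) hi
    exact (Prod.mk.inj h5).2
  have h3 : ∀ i < k, δ.ci i = γ.ci i := by
    intro i hi
    unfold Arc.ci
    rw [h1 i hi.le, h2 i hi]
  refine ⟨h1, h2, h3, ?_⟩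
  intro i
  induction i with
  | zero =>
    intro _ j
    exact congrFun (h1 0 (Nat.zero_le k)) j
  | succ i ih =>
    intro hi j
    have hs1 := δ.step i
    rw [h3 i hi] at hs1
    by_cases hj : j = γ.ci i
    · rw [hj, hs1.same, (γ.step i).same]
      exact ih (by omega) _
    · exact (tangentLine_eq_iff (A := (δ.lift i).2) (B := (γ.lift i).2) hs1 (γ.step i)).1
        (h2 i hi) j hj

/-- membership in `Germ p` -/
lemma germ_data {γ δ : Arc n} {k : ℕ} {p : P n k} (hγ : γ ∈ Germ p) (hδ : δ ∈ Germ p) :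
    (∀ i ≤ k, (δ.lift i).1 = (γ.lift i).1) ∧
    (∀ i < k, δ.ci i = γ.ci i) ∧
    (∀ i ≤ k, ∀ j, constantCoeff (δ.th i j) = constantCoeff (γ.th i j)) ∧
    (∀ i ≤ k, δ.nu i = γ.nu i) := by
  obtain ⟨-, hγp, ⟨jγ, hjγ⟩, hγr⟩ := hγ
  obtain ⟨-, hδp, ⟨jδ, hjδ⟩, hδr⟩ := hδ
  have hsame : (δ.lift k).1 = (γ.lift k).1 := by rw [hγp, hδp]
  obtain ⟨h1, h2, h3, h4⟩ := same_point hsame
  refine ⟨h1, h3, h4, ?_⟩
  have c1 : ∀ (A : Arc n) (i : ℕ) (a : Fin n), coeff 1 (A.th i a) ≠ 0 →
      E (dd (A.th i a)) 0 := by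
    intro A i a h
    refine ⟨by simp, ?_⟩
    rw [coeff_dd]
    simpa using h
  -- the orders of the critical coordinates agree
  have key : ∀ d i, i + d = k → δ.nu i = γ.nu i ∧
      ∀ a ∈ crit (γ.lift i).1, ∀ q, E (dd (γ.th i a)) q → E (dd (δ.th i a)) q := by
    intro d
    induction d with
    | zero =>
      intro i hi
      have hi' : i = k := by omega
      subst hi'
      have e1 : γ.nu i = 0 := Nat.le_zero.1 (γ.nu_le (c1 γ i jγ hjγ).2)
      have e2 : δ.nu i = 0 := Nat.le_zero.1 (δ.nu_le (c1 δ i jδ hjδ).2)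
      refine ⟨by rw [e1, e2], fun a ha q hq => ?_⟩
      rw [hγp] at ha
      have h5 := c1 γ i a (hγr a ha)
      have h6 := c1 δ i a (hδr a ha)
      have h7 := hq.unique h5
      rw [h7]
      exact h6
    | succ d ih =>
      intro i hi
      obtain ⟨-, ih2⟩ := ih (i + 1) (by omega)
      have hik : i < k := by omega
      have hδs := δ.step i
      rw [h3 i hik] at hδs
      have hc : γ.ci i ∈ crit (γ.lift (i + 1)).1 := (γ.mem_crit_succ i _).2 (Or.inl rfl)
      have hE : E (dd (δ.th i (γ.ci i))) (γ.nu i) := by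
        have := ih2 _ hc (γ.nu i) (by rw [(γ.step i).same]; exact γ.E_ci i)
        rwa [hδs.same] at this
      have hE' := δ.E_ci i
      rw [h3 i hik] at hE'
      have hnu : δ.nu i = γ.nu i := hE'.unique hE
      refine ⟨hnu, fun a ha q hq => ?_⟩
      by_cases hac : a = γ.ci i
      · subst hac
        have := hq.unique (γ.E_ci i)
        rw [this]
        exact hE
      have hline := (tangentLine_eq_iff (A := (δ.lift i).2) (B := (γ.lift i).2) hδs
        (γ.step i)).1 (h2 i hik)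
      by_cases hv : coeff (γ.nu i) (dd (γ.th i a)) = 0
      · -- still critical
        have ha' : a ∈ crit (γ.lift (i + 1)).1 := (γ.mem_crit_succ i a).2 (Or.inr ⟨ha, hv⟩)
        have e1 : constantCoeff (γ.th (i + 1) a) = 0 := by
          have := (γ.step i).coeff_eq (γ.E_ci i) hac
          rw [hv] at this
          rcases mul_eq_zero.1 this.symm with h5 | h5
          · exact h5
          · exact absurd h5 (γ.E_ci i).2
        have e2 : constantCoeff (δ.th (i + 1) a) = 0 := by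
          rw [h4 (i + 1) hik a, e1]
        have h5 : E (γ.th (i + 1) a * dd (γ.th i (γ.ci i))) q := by
          rw [(γ.step i).eq a hac]
          exact hq
        obtain ⟨h6, h7⟩ := (γ.E_ci i).cancel h5
        obtain ⟨s, hs⟩ : ∃ s, q - γ.nu i = s + 1 := by
          rcases Nat.eq_zero_or_pos (q - γ.nu i) with h8 | h8
          · rw [h8] at h7
            exact absurd (by rw [coeff_zero_eq_constantCoeff_apply]; exact e1) h7.2
          · exact ⟨q - γ.nu i - 1, by omega⟩
        rw [hs] at h7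
        have h8 := ih2 a ha' s h7.dd
        have h9 := E_of_dd e2 h8
        have h10 := h9.mul hE
        rw [hδs.eq a hac] at h10
        have h11 : s + 1 + γ.nu i = q := by omega
        rw [h11] at h10
        exact h10
      · have h5 : E (dd (γ.th i a)) (γ.nu i) := ⟨γ.nu_dvd i a, hv⟩
        have h6 := hq.unique h5
        rw [h6]
        have h7 : X ^ γ.nu i ∣ dd (δ.th i a) := by
          rw [← hnu]
          exact δ.nu_dvd i a
        refine ⟨h7, ?_⟩
        rw [hδs.coeff_eq hE hac]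
        have h8 := (γ.step i).coeff_eq (γ.E_ci i) hac
        rw [h8] at hv
        have h9 : constantCoeff (δ.th (i + 1) a) = constantCoeff (γ.th (i + 1) a) := hline a hac
        rw [h9]
        exact mul_ne_zero (left_ne_zero_of_mul hv) hE.2
  exact fun i hi => (key (k - i) i (by omega)).1

end Q178.Monster
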