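import Mathlib
import Pool.Agent.Q178.Monster.Facts

/-!
# Chains of prolongations
-/

set_option autoImplicit false

namespace Q178.Monster

open PowerSeries LinearAlgebra.Projectivization

variable {n : ℕ}

/-! ### Convergent series -/

lemma convergent_of_eventually_zero {f : ℂ⟦X⟧} {N : ℕ} (h : ∀ i, N ≤ i → coeff i f = 0) :
    Convergent f := by
  refine ⟨∑ i ∈ Finset.range N, ‖coeff i f‖, 1, fun i => ?_⟩
  rw [one_pow, mul_one]
  rcases Nat.lt_or_ge i N with hi | hi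
  · exact Finset.single_le_sum (f := fun i => ‖coeff i f‖) (fun _ _ => norm_nonneg _)
      (Finset.mem_range.2 hi)
  · rw [h i hi, norm_zero]
    exact Finset.sum_nonneg fun _ _ => norm_nonneg _

lemma convergent_add {f g : ℂ⟦X⟧} (hf : Convergent f) (hg : Convergent g) :
    Convergent (f + g) := by
  obtain ⟨C₁, R₁, h₁⟩ := hf
  obtain ⟨C₂, R₂, h₂⟩ := hg
  refine ⟨|C₁| + |C₂|, max |R₁| |R₂|, fun i => ?_⟩
  rw [map_add]
  refine (norm_add_le _ _).trans ?_
  rw [add_mul]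
  refine add_le_add ((h₁ i).trans ?_) ((h₂ i).trans ?_)
  · calc C₁ * R₁ ^ i ≤ |C₁ * R₁ ^ i| := le_abs_self _
      _ = |C₁| * |R₁| ^ i := by rw [abs_mul, abs_pow]
      _ ≤ |C₁| * (max |R₁| |R₂|) ^ i :=
        mul_le_mul_of_nonneg_left (pow_le_pow_left₀ (abs_nonneg _) (le_max_left _ _) i)
          (abs_nonneg _)
  · calc C₂ * R₂ ^ i ≤ |C₂ * R₂ ^ i| := le_abs_self _
      _ = |C₂| * |R₂| ^ i := by rw [abs_mul, abs_pow]
      _ ≤ |C₂| * (max |R₁| |R₂|) ^ i :=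
        mul_le_mul_of_nonneg_left (pow_le_pow_left₀ (abs_nonneg _) (le_max_right _ _) i)
          (abs_nonneg _)

/-- a polynomial truncation -/
lemma exists_trunc (f : ℂ⟦X⟧) (T : ℕ) : ∃ g : ℂ⟦X⟧, Convergent g ∧ X ^ T ∣ g - f := by
  refine ⟨PowerSeries.mk fun i => if i < T then coeff i f else 0, ?_, ?_⟩
  · refine convergent_of_eventually_zero (N := T) fun i hi => ?_
    rw [coeff_mk, if_neg (not_lt.2 hi)]
  · rw [X_pow_dvd_iff]
    intro i hi
    rw [map_sub, coeff_mk, if_pos hi, sub_self]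

/-! ### Jets -/

lemma JetRep.congr {r : ℕ} {γ δ : Arc n} {β : Fin n → Fin (r + 1) → ℂ} (h : JetRep r γ β)
    (hd : ∀ j, X ^ (r + 1) ∣ δ.coord j - γ.coord j) : JetRep r δ β := by
  obtain ⟨τ, h1, h2, h3, h4⟩ := h
  refine ⟨τ, h1, h2, h3, fun j i => ?_⟩
  rw [← h4 j i]
  have h5 := dvd_cmp h2 (hd j)
  rw [cmp_sub h2] at h5
  have h6 := (X_pow_dvd_iff.1 h5) i i.2
  rw [map_sub, sub_eq_zero] at h6
  exact h6

lemma JetRep.contact {r : ℕ} {γ δ : Arc n} {β : Fin n → Fin (r + 1) → ℂ} (h : JetRep r γ β)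
    (h' : JetRep r δ β) :
    ∃ σ : ℂ⟦X⟧, Inv1 σ ∧ ∀ j, X ^ (r + 1) ∣ cmp (δ.coord j) σ - γ.coord j := by
  obtain ⟨τ, -, h2, h3, h4⟩ := h
  obtain ⟨τ', -, h2', h3', h4'⟩ := h'
  have hτ : Inv1 τ := ⟨h2, h3⟩
  have hτ' : Inv1 τ' := ⟨h2', h3'⟩
  obtain ⟨ρ, hρ, hρ1, hρ2⟩ := hτ.exists_inv
  refine ⟨cmp τ' ρ, hτ'.cmp hρ, fun j => ?_⟩
  have h5 : X ^ (r + 1) ∣ cmp (δ.coord j) τ' - cmp (γ.coord j) τ := by
    rw [X_pow_dvd_iff]
    intro i hi
    rw [map_sub, sub_eq_zero]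
    exact (h4' j ⟨i, hi⟩).trans (h4 j ⟨i, hi⟩).symm
  have h6 := dvd_cmp hρ.1 h5
  rw [cmp_sub hρ.1, cmp_assoc hτ'.1 hρ.1, cmp_assoc hτ.1 hρ.1, hρ1, X_cmp] at h6
  exact h6

/-! ### Going up -/

/-- `1 +` the sum of the multiplicities of the levels `i, …, k - 1` -/
noncomputable def aa (γ : Arc n) (k i : ℕ) : ℕ := 1 + ∑ s ∈ Finset.Ico i k, (γ.nu s + 1)

lemma aa_self (γ : Arc n) (k : ℕ) : aa γ k k = 1 := by simp [aa]

lemma aa_succ (γ : Arc n) {k i : ℕ} (h : i < k) :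
    aa γ k i = aa γ k (i + 1) + (γ.nu i + 1) := by
  unfold aa
  rw [Finset.sum_eq_sum_Ico_succ_bot h]
  ring

lemma one_le_aa (γ : Arc n) (k i : ℕ) : 1 ≤ aa γ k i := by
  unfold aa
  omega

lemma up_chain (γ : Arc n) (k : ℕ) : ∀ d i, i + d = k → ∀ P : Fin n → ℂ⟦X⟧,
    (∀ j, X ^ aa γ k i ∣ P j) →
    ∃ P' : Fin n → ℂ⟦X⟧, (∀ j, X ∣ P' j) ∧
      ∀ (ε : ℂ) (φ : Fin n → ℂ⟦X⟧),
        (∀ j, X ^ (aa γ k i + 1) ∣ φ j - (γ.th i j + C ε * P j)) →
        ∃ Φ : ℕ → Fin n → ℂ⟦X⟧, Φ i = φ ∧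
          (∀ s, i ≤ s → s < k → StepRel (γ.ci s) (Φ s) (Φ (s + 1))) ∧
          (∀ s, i ≤ s → s ≤ k → ∀ j, X ^ aa γ k s ∣ Φ s j - γ.th s j) ∧
          ∀ j, X ^ 2 ∣ Φ k j - (γ.th k j + C ε * P' j) := by
  intro d
  induction d with
  | zero =>
    intro i hi P hP
    have hik : i = k := by omega
    subst hik
    rw [aa_self] at hP
    refine ⟨P, fun j => by simpa using hP j, fun ε φ hφ => ⟨fun _ => φ, rfl, ?_, ?_, ?_⟩⟩
    · intro s h1 h2
      omega
    · intro s h1 h2 j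
      have hs : s = i := by omega
      subst hs
      have h3 : φ j - γ.th s j = (φ j - (γ.th s j + C ε * P j)) + C ε * P j := by ring
      rw [h3]
      refine dvd_add ((pow_dvd_pow X (by omega)).trans (hφ j)) (dvd_mul_of_dvd_right ?_ _)
      rw [aa_self]
      exact hP j
    · intro j
      have := hφ j
      rw [aa_self] at this
      exact this
  | succ d ih =>
    intro i hi P hP
    have hik : i < k := by omega
    have ha := aa_succ γ hik
    have h1 := one_le_aa γ k (i + 1)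
    obtain ⟨P₁, hP₁, hup⟩ := (γ.step i).up (γ.E_ci i) (a := aa γ k i) (by omega) P hP
    have ha' : aa γ k i - (γ.nu i + 1) = aa γ k (i + 1) := by omega
    rw [ha'] at hP₁ hup
    obtain ⟨P', hP', hchain⟩ := ih (i + 1) (by omega) P₁ hP₁
    refine ⟨P', hP', fun ε φ hφ => ?_⟩
    obtain ⟨φ', hφ'1, hφ'2⟩ := hup ε φ hφ
    obtain ⟨Φ, hΦ1, hΦ2, hΦ3, hΦ4⟩ := hchain ε φ' hφ'2
    refine ⟨fun s => if s ≤ i then φ else Φ s, by simp, ?_, ?_, ?_⟩
    · intro s hs1 hs2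
      by_cases h : s ≤ i
      · have hs : s = i := by omega
        subst hs
        simp only [le_refl, if_true, if_neg (show ¬ s + 1 ≤ s by omega)]
        rw [hΦ1]
        exact hφ'1
      · simp only [if_neg h, if_neg (show ¬ s + 1 ≤ i by omega)]
        exact hΦ2 s (by omega) hs2
    · intro s hs1 hs2 j
      by_cases h : s ≤ i
      · have hs : s = i := by omega
        subst hs
        simp only [le_refl, if_true]
        have h3 : φ j - γ.th s j = (φ j - (γ.th s j + C ε * P j)) + C ε * P j := by ring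
        rw [h3]
        exact dvd_add ((pow_dvd_pow X (by omega)).trans (hφ j)) (dvd_mul_of_dvd_right (hP j) _)
      · simp only [if_neg h]
        exact hΦ3 s (by omega) hs2 j
    · intro j
      simp only [if_neg (show ¬ k ≤ i by omega)]
      exact hΦ4 j

/-! ### Going down -/

/-- `1 +` the sum of the multiplicities of the levels `i + 1, …, k` -/
noncomputable def kk (γ : Arc n) (k i : ℕ) : ℕ := 1 + ∑ s ∈ Finset.Ico (i + 1) (k + 1), (γ.nu s + 1)

lemma kk_self (γ : Arc n) (k : ℕ) : kk γ k k = 1 := by simp [kk]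

lemma kk_succ (γ : Arc n) {k i : ℕ} (h : i < k) :
    kk γ k i = kk γ k (i + 1) + (γ.nu (i + 1) + 1) := by
  unfold kk
  rw [Finset.sum_eq_sum_Ico_succ_bot (show i + 1 < k + 1 by omega)]
  ring

lemma aa_kk (γ : Arc n) {k i : ℕ} (h : i ≤ k) :
    aa γ k i + (γ.nu k + 1) = kk γ k i + (γ.nu i + 1) := by
  have h1 : ∑ s ∈ Finset.Ico i (k + 1), (γ.nu s + 1) =
      (∑ s ∈ Finset.Ico i k, (γ.nu s + 1)) + (γ.nu k + 1) := Finset.sum_Ico_succ_top h _
  have h2 : ∑ s ∈ Finset.Ico i (k + 1), (γ.nu s + 1) =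
      (γ.nu i + 1) + ∑ s ∈ Finset.Ico (i + 1) (k + 1), (γ.nu s + 1) :=
    Finset.sum_eq_sum_Ico_succ_bot (show i < k + 1 by omega) _
  unfold aa kk
  omega

lemma down_chain {γ δ : Arc n} {k : ℕ} (hci : ∀ i < k, δ.ci i = γ.ci i)
    (hconst : ∀ i ≤ k, ∀ j, constantCoeff (δ.th i j) = constantCoeff (γ.th i j))
    (hnu : ∀ i ≤ k, δ.nu i = γ.nu i) :
    ∀ d i, i + d = k → ∃ σ : ℂ⟦X⟧, Inv1 σ ∧ ∀ j, X ^ kk γ k i ∣ cmp (δ.th i j) σ - γ.th i j := by
  intro d
  induction d with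
  | zero =>
    intro i hi
    have hik : i = k := by omega
    subst hik
    refine ⟨X, inv1_X, fun j => ?_⟩
    rw [kk_self, pow_one, X_cmp, X_dvd_iff, map_sub, hconst i le_rfl j, sub_self]
  | succ d ih =>
    intro i hi
    have hik : i < k := by omega
    obtain ⟨σ, hσ, hclose⟩ := ih (i + 1) (by omega)
    have h1 : 1 ≤ kk γ k (i + 1) := by
      unfold kk
      omega
    have hs := δ.step i
    rw [hci i hik] at hs
    have hE := δ.E_ci i
    rw [hci i hik, hnu i hik.le] at hE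
    have h2 : ∀ j, X ^ (γ.nu (i + 1) + 1) ∣ δ.th (i + 1) j -
        C (constantCoeff (δ.th (i + 1) j)) := by
      intro j
      rw [← hnu (i + 1) hik]
      exact δ.dvd_sub_const (i + 1) j
    obtain ⟨σ', hσ', hclose'⟩ := (γ.step i).down hs (γ.E_ci i) hE
      (m' := γ.nu (i + 1) + 1) (by have := γ.nu_succ_le i; omega) (hconst i hik.le)
      (γ.dvd_sub_const (i + 1)) h2 h1 hσ hclose
    refine ⟨σ', hσ', fun j => ?_⟩
    rw [kk_succ γ hik]
    exact hclose' j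

/-- integrating down the levels at which the chart index is `x` -/
lemma integrate_chain (γ : Arc n) (x : Fin n) : ∀ l, (∀ s < l, γ.ci s = x) →
    ∀ φ : Fin n → ℂ⟦X⟧, dd (φ x) ≠ 0 →
    (∀ j, constantCoeff (φ j) = constantCoeff (γ.th l j)) →
    ∃ Φ : ℕ → Fin n → ℂ⟦X⟧, Φ l = φ ∧ (∀ s < l, StepRel x (Φ s) (Φ (s + 1))) ∧
      ∀ s ≤ l, ∀ j, constantCoeff (Φ s j) = constantCoeff (γ.th s j) := by
  intro l
  induction l with
  | zero =>
    intro _ φ _ hc
    refine ⟨fun _ => φ, rfl, fun s hs => by omega, fun s hs j => ?_⟩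
    have : s = 0 := by omega
    subst this
    exact hc j
  | succ l ih =>
    intro hx φ hφ hc
    have hstep := γ.step l
    rw [hx l (by omega)] at hstep
    obtain ⟨ψ, hψ1, hψ2⟩ := hstep.integrate φ hφ
    have hψc : ∀ j, constantCoeff (ψ j) = constantCoeff (γ.th l j) := by
      intro j
      by_cases hj : j = x
      · rw [hj, ← hψ1.same, hc x, hstep.same]
      · exact hψ2 j hj
    obtain ⟨Φ, h1, h2, h3⟩ := ih (fun s hs => hx s (by omega)) ψ
      (by rw [← hψ1.same]; exact hφ) hψc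
    refine ⟨fun s => if s ≤ l then Φ s else φ, by simp, ?_, ?_⟩
    · intro s hs
      by_cases h : s = l
      · subst h
        simp only [le_refl, if_true, if_neg (show ¬ s + 1 ≤ s by omega)]
        rw [h1]
        exact hψ1
      · simp only [if_pos (show s ≤ l by omega), if_pos (show s + 1 ≤ l by omega)]
        exact h2 s (by omega)
    · intro s hs j
      by_cases h : s ≤ l
      · simp only [if_pos h]
        exact h3 s h j
      · simp only [if_neg h]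
        have : s = l + 1 := by omega
        subst this
        exact hc j

/-- contact of two arcs along the levels at which the chart index is `x` -/
lemma close_chain (γ : Arc n) (x : Fin n) (m : ℕ) : ∀ l,
    (∀ s < l, γ.ci s = x ∧ γ.nu s + 1 = m) →
    ∀ (Φ : ℕ → Fin n → ℂ⟦X⟧), (∀ s < l, StepRel x (Φ s) (Φ (s + 1))) →
    ∀ (σ : ℂ⟦X⟧), Inv1 σ → ∀ R, (∀ j, X ^ R ∣ cmp (Φ 0 j) σ - γ.th 0 j) →
    (∀ j, X ^ (R - l * m) ∣ cmp (Φ l j) σ - γ.th l j) ∧ X ^ R ∣ cmp (Φ l x) σ - γ.th l x := by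
  intro l
  induction l with
  | zero =>
    intro _ Φ _ σ _ R hR
    refine ⟨fun j => ?_, hR x⟩
    simpa using hR j
  | succ l ih =>
    intro hx Φ hΦ σ hσ R hR
    obtain ⟨h1, h2⟩ := ih (fun s hs => hx s (by omega)) Φ (fun s hs => hΦ s (by omega)) σ hσ R hR
    obtain ⟨hxl, hml⟩ := hx l (by omega)
    have hs := γ.step l
    rw [hxl] at hs
    have hE := γ.E_ci l
    rw [hxl] at hE
    have hs' := (hΦ l (by omega)).compose hσ
    have hx' : X ^ R ∣ cmp (Φ (l + 1) x) σ - γ.th (l + 1) x := by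
      rw [hs.same, (hΦ l (by omega)).same]
      exact h2
    refine ⟨fun j => ?_, hx'⟩
    by_cases hj : j = x
    · rw [hj]
      exact (pow_dvd_pow X (Nat.sub_le _ _)).trans hx'
    · have h3 := hs.close hs' hE h1 j hj
      rw [hml] at h3
      refine (pow_dvd_pow X ?_).trans h3
      rw [Nat.sub_sub, Nat.succ_mul]

end Q178.Monster
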