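import Mathlib
import Pool.Agent.Q178.Monster.Chains

/-!
# No jet identification number in dimension at least three
-/

set_option autoImplicit false

namespace Q178.Monster

open PowerSeries LinearAlgebra.Projectivization

variable {n : ℕ}

lemma exists_germ {k : ℕ} (hn : 3 ≤ n) {p : P n k} {r : ℕ} {β : Fin n → Fin (r + 1) → ℂ}
    (hG : Germ p = {γ : Arc n | γ.IsAnalytic ∧ JetRep r γ β}) : ∃ γ, γ ∈ Germ p := by
  let f : Fin n → ℂ⟦X⟧ := fun j => PowerSeries.mk fun i =>
    if h : i < r + 1 then β j ⟨i, h⟩ else if i = r + 1 then 1 else 0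
  have hnon : ∃ j, d⁄dX ℂ (f j) ≠ 0 := by
    refine ⟨⟨0, by omega⟩, fun h => ?_⟩
    have h1 : coeff r (dd (f ⟨0, by omega⟩)) = 0 := by
      unfold dd
      rw [h]
      simp
    rw [coeff_dd] at h1
    have h2 : coeff (r + 1) (f ⟨0, by omega⟩) = 1 := by
      simp [f]
    rw [h2, one_mul] at h1
    exact Nat.cast_add_one_ne_zero r h1
  refine ⟨⟨f, hnon⟩, ?_⟩
  rw [hG]
  refine ⟨fun j => convergent_of_eventually_zero (N := r + 2) fun i hi => ?_, X,
    convergent_of_eventually_zero (N := 2) fun i hi => ?_, by simp, by simp, fun j i => ?_⟩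
  · simp only [f, coeff_mk]
    rw [dif_neg (by omega), if_neg (by omega)]
  · rw [coeff_X, if_neg (by omega)]
  · rw [X_subst]
    simp only [f, coeff_mk]
    rw [dif_pos i.2]

/-- the first perturbation -/
lemma step_one {k : ℕ} {p : P n k} {r : ℕ} {β : Fin n → Fin (r + 1) → ℂ}
    (hG : Germ p = {γ : Arc n | γ.IsAnalytic ∧ JetRep r γ β}) {γ : Arc n} (hγ : γ ∈ Germ p)
    {l' : ℕ} (hlk : l' + 1 < k) {x u : Fin n} (hxu : x ≠ u)
    (hx : ∀ s < l' + 1, γ.ci s = x ∧ γ.nu s + 1 = γ.nu 0 + 1)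
    (hu : γ.ci (l' + 1) = u) (hxl : E (dd (γ.th (l' + 1) x)) (γ.nu 0)) :
    r < aa γ k (l' + 2) + 2 * (γ.nu (l' + 1) + 1) + l' * (γ.nu 0 + 1) := by
  classical
  by_contra hr
  push Not at hr
  have hγJ : JetRep r γ β := by
    rw [hG] at hγ
    exact hγ.2
  obtain ⟨-, hγp, ⟨j₁, hj₁⟩, hreg⟩ := hγ
  change coeff 1 (γ.th k j₁) ≠ 0 at hj₁
  change ∀ a ∈ crit p, coeff 1 (γ.th k a) ≠ 0 at hreg
  have hEu := γ.E_ci (l' + 1)
  rw [hu] at hEu
  have hstepu := γ.step (l' + 1)
  rw [hu] at hstepu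
  set a := aa γ k (l' + 2) with ha
  have ha1 : 1 ≤ a := one_le_aa γ k (l' + 2)
  set G : ℂ⟦X⟧ := prim (X ^ a * dd (γ.th (l' + 1) u)) with hGdef
  have hXa : E ((X : ℂ⟦X⟧) ^ a) a := E_iff.2 ⟨1, isUnit_one, by simp⟩
  have hGE : E G (a + γ.nu (l' + 1) + 1) := by
    refine E_of_dd (constantCoeff_prim _) ?_
    rw [dd_prim]
    exact hXa.mul hEu
  have hG0 : constantCoeff G = 0 := constantCoeff_prim _
  obtain ⟨P', hP', hup⟩ := up_chain γ k (k - (l' + 2)) (l' + 2) (by omega)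
    (fun j => if j = x then X ^ a else 0) (fun j => by
      by_cases hj : j = x
      · simp [hj, ha]
      · simp [hj])
  set S : Set ℂ := {ε | dd (γ.th (l' + 1) x + C ε * G) ≠ 0 ∧
    ∀ j, coeff 1 (γ.th k j) ≠ 0 → coeff 1 (γ.th k j) + ε * coeff 1 (P' j) ≠ 0} with hS
  have hSinf : S.Infinite := by
    have h1 : Sᶜ ⊆ {ε | dd (γ.th (l' + 1) x + C ε * G) = 0} ∪
        ⋃ j : Fin n, {ε | coeff 1 (γ.th k j) ≠ 0 ∧
          coeff 1 (γ.th k j) + ε * coeff 1 (P' j) = 0} := by
      intro ε hε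
      rw [Set.mem_compl_iff, hS, Set.mem_ofPred_eq, not_and_or] at hε
      rcases hε with h | h
      · left
        exact not_not.1 h
      · right
        push Not at h
        obtain ⟨j, h2, h3⟩ := h
        exact Set.mem_iUnion.2 ⟨j, h2, h3⟩
    have h2 : ({ε | dd (γ.th (l' + 1) x + C ε * G) = 0} ∪
        ⋃ j : Fin n, {ε | coeff 1 (γ.th k j) ≠ 0 ∧
          coeff 1 (γ.th k j) + ε * coeff 1 (P' j) = 0}).Finite := by
      refine Set.Finite.union ?_ (Set.finite_iUnion fun j => ?_)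
      · refine Set.Subsingleton.finite ?_
        intro ε hε ε' hε'
        rw [Set.mem_ofPred_eq, dd_add, dd_C_mul] at hε hε'
        have h3 : C (ε - ε') * dd G = 0 := by
          rw [map_sub]
          linear_combination hε - hε'
        have h4 : dd G ≠ 0 := (hGE.dd).ne_zero
        rcases mul_eq_zero.1 h3 with h5 | h5
        · have h6 : ε - ε' = 0 := by
            have := congrArg constantCoeff h5
            simpa using this
          exact sub_eq_zero.1 h6
        · exact absurd h5 h4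
      · refine Set.Subsingleton.finite ?_
        rintro ε ⟨h3, h4⟩ ε' ⟨-, h5⟩
        have h6 : coeff 1 (P' j) ≠ 0 := by
          intro h
          rw [h, mul_zero, add_zero] at h4
          exact h3 h4
        have h7 : (ε - ε') * coeff 1 (P' j) = 0 := by linear_combination h4 - h5
        rcases mul_eq_zero.1 h7 with h8 | h8
        · exact sub_eq_zero.1 h8
        · exact absurd h8 h6
    have h3 : (Sᶜ).Finite := h2.subset h1
    intro hfin
    exact Set.infinite_univ (α := ℂ) (by rw [← Set.union_compl_self S]; exact hfin.union h3)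
  have hh : X ^ (γ.nu 0 + 1) ∣ γ.th (l' + 1) x - C (constantCoeff (γ.th (l' + 1) x)) := by
    refine dvd_of_dd (by simp) ?_
    have : dd (γ.th (l' + 1) x - C (constantCoeff (γ.th (l' + 1) x))) =
        dd (γ.th (l' + 1) x) := by
      rw [dd_sub]
      have : dd (C (constantCoeff (γ.th (l' + 1) x))) = 0 := by
        ext i
        rw [coeff_dd]
        simp
      rw [this, sub_zero]
    rw [this]
    exact hxl.1
  have hf : E (γ.th (l' + 1) u - C (constantCoeff (γ.th (l' + 1) u))) (γ.nu (l' + 1) + 1) := by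
    refine E_of_dd (by simp) ?_
    have : dd (γ.th (l' + 1) u - C (constantCoeff (γ.th (l' + 1) u))) =
        dd (γ.th (l' + 1) u) := by
      rw [dd_sub]
      have : dd (C (constantCoeff (γ.th (l' + 1) u))) = 0 := by
        ext i
        rw [coeff_dd]
        simp
      rw [this, sub_zero]
    rw [this]
    exact hEu
  have hmul : (l' + 1) * (γ.nu 0 + 1) = l' * (γ.nu 0 + 1) + (γ.nu 0 + 1) := Nat.succ_mul _ _
  refine rigidity (κ := (r + 1) - (l' + 1) * (γ.nu 0 + 1)) hf hh hGE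
    (by rw [hmul]; omega) hSinf ?_
  -- the perturbed curves
  intro ε hε
  obtain ⟨hε1, hε2⟩ := hε
  obtain ⟨Φ₁, hΦ₁, hΦ₁s, hΦ₁c, hΦ₁k⟩ := hup ε
    (fun j => γ.th (l' + 2) j + C ε * (if j = x then X ^ a else 0)) (fun j => by simp)
  have hφc : ∀ j, constantCoeff ((fun j => if j = x then γ.th (l' + 1) x + C ε * G
      else γ.th (l' + 1) j) j) = constantCoeff (γ.th (l' + 1) j) := by
    intro j
    by_cases hj : j = x
    · simp only [if_pos hj, map_add, map_mul, hG0, mul_zero, add_zero]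
      rw [hj]
    · simp only [if_neg hj]
  obtain ⟨Φ₀, hΦ₀, hΦ₀s, hΦ₀c⟩ := integrate_chain γ x (l' + 1) (fun s hs => (hx s hs).1)
    (fun j => if j = x then γ.th (l' + 1) x + C ε * G else γ.th (l' + 1) j)
    (by simpa using hε1) hφc
  set Φ : ℕ → Fin n → ℂ⟦X⟧ := fun s => if s ≤ l' + 1 then Φ₀ s else Φ₁ s with hΦdef
  have hΦle : ∀ s ≤ l' + 1, Φ s = Φ₀ s := fun s hs => by simp only [hΦdef, if_pos hs]
  have hΦgt : ∀ s, l' + 2 ≤ s → Φ s = Φ₁ s := fun s hs => by
    simp only [hΦdef, if_neg (show ¬ s ≤ l' + 1 by omega)]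
  have hsteps : ∀ s < k, StepRel (γ.ci s) (Φ s) (Φ (s + 1)) := by
    intro s hs
    rcases lt_trichotomy s (l' + 1) with h | h | h
    · rw [hΦle s h.le, hΦle (s + 1) h, (hx s h).1]
      exact hΦ₀s s h
    · subst h
      rw [hΦle _ le_rfl, hΦgt _ le_rfl, hu, hΦ₀, hΦ₁]
      have hux : u ≠ x := fun h => hxu h.symm
      refine ⟨?_, ?_, ?_⟩
      · simp only [if_neg hux]
        exact hEu.ne_zero
      · simp only [if_neg hux, mul_zero, add_zero]
        exact hstepu.same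
      · intro j hj
        by_cases hjx : j = x
        · subst hjx
          simp only [if_true, if_neg hux]
          rw [dd_add, dd_C_mul, hGdef, dd_prim, ← hstepu.eq j hj]
          ring
        · simp only [if_neg hjx, if_neg hux, mul_zero, add_zero]
          exact hstepu.eq j hj
    · rw [hΦgt s (by omega), hΦgt (s + 1) (by omega)]
      exact hΦ₁s s (by omega) hs
  have hconsts : ∀ s ≤ k, ∀ j, constantCoeff (Φ s j) = constantCoeff (γ.th s j) := by
    intro s hs j
    rcases Nat.lt_or_ge s (l' + 2) with h | h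
    · rw [hΦle s (by omega)]
      exact hΦ₀c s (by omega) j
    · rw [hΦgt s h]
      have h1 := (X_pow_dvd_iff.1 (hΦ₁c s h hs j)) 0
        (by have := one_le_aa γ k s; omega)
      rw [coeff_zero_eq_constantCoeff_apply, map_sub, sub_eq_zero] at h1
      exact h1
  have hnz : ∃ j, d⁄dX ℂ (Φ 0 j) ≠ 0 := by
    have := hsteps 0 (by omega)
    exact ⟨_, this.nz⟩
  set δ₀ : Arc n := ⟨Φ 0, hnz⟩ with hδ₀
  have hlift₀ := lift_of_steps γ δ₀ k Φ rfl hsteps hconsts
  -- polynomial truncation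
  have htr : ∀ j, ∃ g : ℂ⟦X⟧, Convergent g ∧ X ^ (max (aa δ₀ k 0 + 1) (r + 1)) ∣ g - Φ 0 j :=
    fun j => exists_trunc _ _
  choose g hg1 hg2 using htr
  obtain ⟨P'', -, hup'⟩ := up_chain δ₀ k k 0 (by omega) (fun _ => 0) (fun _ => dvd_zero _)
  obtain ⟨Ψ, hΨ0, hΨs, hΨc, hΨk⟩ := hup' 0 g (fun j => by
    have h1 : g j - (δ₀.th 0 j + C 0 * 0) = g j - Φ 0 j := by
      rw [mul_zero, add_zero]
      rfl
    rw [h1]
    exact (pow_dvd_pow X (le_max_left _ _)).trans (hg2 j))
  have hnz' : ∃ j, d⁄dX ℂ (g j) ≠ 0 := by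
    have h1 := hΨs 0 le_rfl (by omega)
    rw [hΨ0] at h1
    exact ⟨_, h1.nz⟩
  set δ : Arc n := ⟨g, hnz'⟩ with hδ
  have hlift := lift_of_steps δ₀ δ k Ψ hΨ0.symm (fun s hs => hΨs s (Nat.zero_le _) hs)
    (fun s hs j => by
      have h1 := (X_pow_dvd_iff.1 (hΨc s (Nat.zero_le _) hs j)) 0
        (by have := one_le_aa δ₀ k s; omega)
      rw [coeff_zero_eq_constantCoeff_apply, map_sub, sub_eq_zero] at h1
      exact h1)
  have hcoeff : ∀ j, coeff 1 (δ.th k j) = coeff 1 (γ.th k j) + ε * coeff 1 (P' j) := by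
    intro j
    rw [(hlift k le_rfl).2]
    have h1 := (X_pow_dvd_iff.1 (hΨk j)) 1 (by omega)
    rw [map_sub, sub_eq_zero] at h1
    rw [h1, (hlift₀ k le_rfl).2, hΦgt k (by omega)]
    have h2 := (X_pow_dvd_iff.1 (hΦ₁k j)) 1 (by omega)
    rw [map_sub, sub_eq_zero] at h2
    rw [map_add, h2, map_add, coeff_C_mul, coeff_C_mul]
    ring
  have hmem : δ ∈ Germ p := by
    refine ⟨hg1, ?_, ⟨j₁, ?_⟩, ?_⟩
    · rw [(hlift k le_rfl).1, (hlift₀ k le_rfl).1, hγp]
    · change coeff 1 (δ.th k j₁) ≠ 0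
      rw [hcoeff]
      exact hε2 j₁ hj₁
    · intro b hb
      change coeff 1 (δ.th k b) ≠ 0
      rw [hcoeff]
      exact hε2 b (hreg b hb)
  have hδJ : JetRep r δ β := by
    rw [hG] at hmem
    exact hmem.2
  obtain ⟨σ, hσ, hclose⟩ := hγJ.contact hδJ
  have hclose' : ∀ j, X ^ (r + 1) ∣ cmp (Φ 0 j) σ - γ.th 0 j := by
    intro j
    have h1 : cmp (Φ 0 j) σ - γ.th 0 j = (cmp (δ.coord j) σ - γ.coord j) -
        cmp (g j - Φ 0 j) σ := by
      rw [cmp_sub hσ.1]
      change cmp (Φ 0 j) σ - γ.coord j = (cmp (g j) σ - γ.coord j) - _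
      ring
    rw [h1]
    exact dvd_sub (hclose j)
      (dvd_cmp hσ.1 ((pow_dvd_pow X (le_max_right _ _)).trans (hg2 j)))
  obtain ⟨hc1, hc2⟩ := close_chain γ x (γ.nu 0 + 1) (l' + 1) hx Φ (fun s hs => by
    have := hsteps s (by omega)
    rwa [(hx s hs).1] at this) σ hσ (r + 1) hclose'
  have hΦl : Φ (l' + 1) = fun j => if j = x then γ.th (l' + 1) x + C ε * G
      else γ.th (l' + 1) j := by
    rw [hΦle _ le_rfl, hΦ₀]
  refine ⟨σ, hσ, ?_, ?_⟩
  · have h1 := hc1 u
    rw [hΦl] at h1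
    simpa only [if_neg (fun h : u = x => hxu h.symm)] using h1
  · rw [hΦl] at hc2
    simp only [if_true] at hc2
    exact (pow_dvd_pow X (by omega)).trans hc2

/-- the second perturbation -/
lemma step_two {k : ℕ} {p : P n k} {r : ℕ} {β : Fin n → Fin (r + 1) → ℂ}
    (hG : Germ p = {γ : Arc n | γ.IsAnalytic ∧ JetRep r γ β}) {γ : Arc n} (hγ : γ ∈ Germ p)
    {l' : ℕ} (hlk : l' + 1 < k) {x u w : Fin n} (hxu : x ≠ u) (hwx : w ≠ x) (hwu : w ≠ u)
    (hx : ∀ s < l' + 1, γ.ci s = x ∧ γ.nu s + 1 = γ.nu 0 + 1)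
    (hu : γ.ci (l' + 1) = u) (hxl : E (dd (γ.th (l' + 1) x)) (γ.nu 0))
    (hνk : γ.nu k = 0) (hνl : γ.nu (l' + 1) < γ.nu 0)
    (hr : r < aa γ k (l' + 2) + 2 * (γ.nu (l' + 1) + 1) + l' * (γ.nu 0 + 1)) : False := by
  classical
  set N := aa γ k (l' + 2) + 2 * (γ.nu (l' + 1) + 1) + l' * (γ.nu 0 + 1) with hN
  have hγJ : JetRep r γ β ∧ γ.IsAnalytic := by
    rw [hG] at hγ
    exact ⟨hγ.2, hγ.1⟩
  have hEu := γ.E_ci (l' + 1)
  rw [hu] at hEu
  have hstepu := γ.step (l' + 1)
  rw [hu] at hstepu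
  -- the coordinate `x` at the level `λ = l' + 2`
  have hEx : E (γ.th (l' + 2) x) (γ.nu 0 - γ.nu (l' + 1)) := by
    have h1 : E (γ.th (l' + 2) x * dd (γ.th (l' + 1) u)) (γ.nu 0) := by
      rw [hstepu.eq x hxu]
      exact hxl
    exact (hEu.cancel h1).2
  obtain ⟨q, hq⟩ : ∃ q, γ.nu 0 - γ.nu (l' + 1) = q + 1 := ⟨γ.nu 0 - γ.nu (l' + 1) - 1, by omega⟩
  rw [hq] at hEx
  have hnuq : γ.nu (l' + 2) ≤ q := γ.nu_le hEx.dd.2
  have hx0 : constantCoeff (γ.th (l' + 2) x) = 0 := by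
    rw [← X_dvd_iff]
    exact (dvd_pow_self X (Nat.succ_ne_zero q)).trans hEx.1
  -- the perturbed arcs
  have hx00 : γ.ci 0 = x := (hx 0 (by omega)).1
  have hnz0 : dd (γ.coord x) ≠ 0 := by
    have := (γ.step 0).nz
    rwa [hx00] at this
  let f : ℂ → Fin n → ℂ⟦X⟧ := fun ε j => γ.coord j + C ε * (if j = w then X ^ N else 0)
  have hfnz : ∀ ε, ∃ j, d⁄dX ℂ (f ε j) ≠ 0 := by
    intro ε
    refine ⟨x, ?_⟩
    have : f ε x = γ.coord x := by
      simp only [f, if_neg (fun h : x = w => hwx h.symm), mul_zero, add_zero]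
    rw [this]
    exact hnz0
  let δ : ℂ → Arc n := fun ε => ⟨f ε, hfnz ε⟩
  have hδG : ∀ ε, δ ε ∈ Germ p := by
    intro ε
    rw [hG]
    refine ⟨fun j => ?_, hγJ.1.congr fun j => ?_⟩
    · refine convergent_add (hγJ.2 j) (convergent_of_eventually_zero (N := N + 1) fun i hi => ?_)
      by_cases hj : j = w
      · simp only [if_pos hj, coeff_C_mul, coeff_X_pow]
        rw [if_neg (by omega), mul_zero]
      · simp [if_neg hj]
    · change X ^ (r + 1) ∣ f ε j - γ.coord j
      simp only [f, add_sub_cancel_left]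
      by_cases hj : j = w
      · simp only [if_pos hj]
        exact dvd_mul_of_dvd_right (pow_dvd_pow X hr) _
      · simp [if_neg hj]
  -- the perturbation at the levels up to `λ`
  let D : ℕ → ℂ⟦X⟧ := fun i => (δ 1).th i w - γ.th i w
  have hci : ∀ ε, ∀ i < k, (δ ε).ci i = γ.ci i := fun ε => (germ_data hγ (hδG ε)).2.1
  have hconst : ∀ ε, ∀ i ≤ k, ∀ j, constantCoeff ((δ ε).th i j) = constantCoeff (γ.th i j) :=
    fun ε => (germ_data hγ (hδG ε)).2.2.1
  have hnu : ∀ ε, ∀ i ≤ k, (δ ε).nu i = γ.nu i := fun ε => (germ_data hγ (hδG ε)).2.2.2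
  have hciw : ∀ i < l' + 2, w ≠ γ.ci i := by
    intro i hi
    rcases Nat.lt_or_ge i (l' + 1) with h | h
    · rw [(hx i h).1]
      exact hwx
    · have : i = l' + 1 := by omega
      rw [this, hu]
      exact hwu
  have hA : ∀ i ≤ l' + 2, ∀ ε, (∀ j, j ≠ w → (δ ε).th i j = γ.th i j) ∧
      (δ ε).th i w = γ.th i w + C ε * D i := by
    intro i
    induction i with
    | zero =>
      intro _ ε
      refine ⟨fun j hj => ?_, ?_⟩
      · change f ε j = γ.coord j
        simp only [f, if_neg hj, mul_zero, add_zero]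
      · change f ε w = γ.coord w + C ε * (f 1 w - γ.coord w)
        simp only [f, if_true, map_one, one_mul]
        ring
    | succ i ih =>
      intro hi ε
      have hil : i < l' + 2 := by omega
      obtain ⟨ih1, ih2⟩ := ih hil.le ε
      obtain ⟨ih1', ih2'⟩ := ih hil.le 1
      have hcw : γ.ci i ≠ w := fun h => hciw i hil h.symm
      have hs := (δ ε).step i
      rw [hci ε i (by omega)] at hs
      have hs' := (δ 1).step i
      rw [hci 1 i (by omega)] at hs'
      have hsc : (δ ε).th i (γ.ci i) = γ.th i (γ.ci i) := ih1 _ hcw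
      have hsc' : (δ 1).th i (γ.ci i) = γ.th i (γ.ci i) := ih1' _ hcw
      have hnz := (γ.step i).nz
      refine ⟨fun j hj => ?_, ?_⟩
      · by_cases hjc : j = γ.ci i
        · rw [hjc, hs.same, (γ.step i).same, hsc]
        · apply mul_right_cancel₀ hnz
          rw [(γ.step i).eq j hjc, ← hsc, hs.eq j hjc, ih1 j hj]
      · apply mul_right_cancel₀ hnz
        have e1 := hs.eq w (fun h => hciw i hil h)
        rw [hsc, ih2, dd_add, dd_C_mul] at e1
        have e2 := hs'.eq w (fun h => hciw i hil h)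
        rw [hsc'] at e2
        have e3 := (γ.step i).eq w (fun h => hciw i hil h)
        have e4 : dd (D i) = dd ((δ 1).th i w) - dd (γ.th i w) := dd_sub _ _
        rw [e4] at e1
        change (δ ε).th (i + 1) w * dd (γ.th i (γ.ci i)) =
          (γ.th (i + 1) w + C ε * ((δ 1).th (i + 1) w - γ.th (i + 1) w)) *
            dd (γ.th i (γ.ci i))
        linear_combination e1 - C ε * e2 - (1 - C ε) * e3
  have hD0 : ∀ i ≤ k, constantCoeff (D i) = 0 := by
    intro i hi
    simp only [D, map_sub]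
    rw [hconst 1 i hi w, sub_self]
  have hDstep : ∀ i < l' + 2, D (i + 1) * dd (γ.th i (γ.ci i)) = dd (D i) := by
    intro i hi
    have hcw : γ.ci i ≠ w := fun h => hciw i hi h.symm
    have hs' := (δ 1).step i
    rw [hci 1 i (by omega)] at hs'
    have hsc' : (δ 1).th i (γ.ci i) = γ.th i (γ.ci i) := (hA i hi.le 1).1 _ hcw
    have e2 := hs'.eq w (hciw i hi)
    rw [hsc'] at e2
    have e3 := (γ.step i).eq w (hciw i hi)
    have e4 : dd (D i) = dd ((δ 1).th i w) - dd (γ.th i w) := dd_sub _ _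
    rw [e4]
    simp only [D]
    linear_combination e2 - e3
  have hDE : ∀ i ≤ l' + 1, ∃ q, q + i * (γ.nu 0 + 1) = N ∧ E (D i) q := by
    intro i
    induction i with
    | zero =>
      intro _
      refine ⟨N, by simp, ?_⟩
      have : D 0 = X ^ N := by
        change f 1 w - γ.coord w = X ^ N
        simp only [f, if_true, map_one, one_mul]
        ring
      rw [this]
      exact E_iff.2 ⟨1, isUnit_one, by simp⟩
    | succ i ih =>
      intro hi
      obtain ⟨q, hq1, hq2⟩ := ih (by omega)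
      rcases q with _ | q
      · exact absurd (by rw [coeff_zero_eq_constantCoeff_apply]; exact hD0 i (by omega)) hq2.2
      have h1 := hq2.dd
      rw [← hDstep i (by omega)] at h1
      obtain ⟨h2, h3⟩ := (γ.E_ci i).cancel h1
      refine ⟨q - γ.nu i, ?_, h3⟩
      have h4 := (hx i (by omega)).2
      rw [Nat.succ_mul]
      omega
  obtain ⟨b, hb1, hb2⟩ : ∃ b, b + (γ.nu (l' + 1) + 1) + (l' + 1) * (γ.nu 0 + 1) = N ∧
      E (D (l' + 2)) b := by
    obtain ⟨q, hq1, hq2⟩ := hDE (l' + 1) le_rfl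
    rcases q with _ | q
    · exact absurd (by rw [coeff_zero_eq_constantCoeff_apply]; exact hD0 _ (by omega)) hq2.2
    have h1 := hq2.dd
    rw [← hDstep (l' + 1) (by omega)] at h1
    obtain ⟨h2, h3⟩ := (γ.E_ci (l' + 1)).cancel h1
    exact ⟨q - γ.nu (l' + 1), by omega, h3⟩
  have hmul : (l' + 1) * (γ.nu 0 + 1) = l' * (γ.nu 0 + 1) + (γ.nu 0 + 1) := Nat.succ_mul _ _
  have hkk := aa_kk γ (show l' + 2 ≤ k by omega)
  rw [hνk] at hkk
  have hf : E (γ.th (l' + 2) x - C (constantCoeff (γ.th (l' + 2) x))) (q + 1) := by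
    rw [hx0, map_zero, sub_zero]
    exact hEx
  refine rigidity (κ := kk γ k (l' + 2)) hf (γ.dvd_sub_const (l' + 2) w) hb2 (by omega)
    (Set.infinite_univ (α := ℂ)) ?_
  intro ε _
  obtain ⟨σ, hσ, hclose⟩ := down_chain (hci ε) (hconst ε) (hnu ε) (k - (l' + 2)) (l' + 2)
    (by omega)
  refine ⟨σ, hσ, ?_, ?_⟩
  · have h1 := hclose x
    rwa [(hA (l' + 2) le_rfl ε).1 x (fun h => hwx h.symm)] at h1
  · have h1 := hclose w
    rw [(hA (l' + 2) le_rfl ε).2] at h1
    exact (pow_dvd_pow X (by omega)).trans h1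

/-- **Main theorem.** In dimension `n ≥ 3` no point of the Monster tower other than a Cartan
point has a jet identification number. -/
theorem no_jet_identification_number (hn : 3 ≤ n) {k : ℕ} (p : P n k) (hp : ¬ IsCartan p)
    (r : ℕ) : ¬ HasJetIdentificationNumber p r := by
  classical
  rintro ⟨β, hG⟩
  obtain ⟨γ, hγ⟩ := exists_germ hn hG
  have hγ' := hγ
  obtain ⟨hγa, hγp, ⟨j₁, hj₁⟩, hreg⟩ := hγ'
  change coeff 1 (γ.th k j₁) ≠ 0 at hj₁
  change ∀ a ∈ crit p, coeff 1 (γ.th k a) ≠ 0 at hreg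
  have hdd1 : ∀ i j, coeff 1 (γ.th i j) ≠ 0 → coeff 0 (dd (γ.th i j)) ≠ 0 := by
    intro i j h
    rw [coeff_dd]
    simpa using h
  have hνk : γ.nu k = 0 := Nat.le_zero.1 (γ.nu_le (hdd1 k j₁ hj₁))
  have hν0 : 1 ≤ γ.nu 0 := by
    by_contra h
    have h0 : γ.nu 0 = 0 := by omega
    apply hp
    refine ⟨γ, hγa, ?_, hγp⟩
    have h1 := (γ.E_ci 0).2
    rw [h0, coeff_dd] at h1
    refine ⟨γ.ci 0, ?_⟩
    have h2 : coeff (0 + 1) (γ.coord (γ.ci 0)) ≠ 0 := left_ne_zero_of_mul h1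
    simpa using h2
  have hanti : ∀ i, γ.nu i ≤ γ.nu 0 := by
    intro i
    induction i with
    | zero => exact le_rfl
    | succ i ih => exact (γ.nu_succ_le i).trans ih
  -- the first level at which the multiplicity drops
  have hex : ∃ i, γ.nu i < γ.nu 0 := ⟨k, by omega⟩
  obtain ⟨l, hl1, hl2⟩ : ∃ l, γ.nu l < γ.nu 0 ∧ ∀ i < l, γ.nu i = γ.nu 0 := by
    refine ⟨Nat.find hex, Nat.find_spec hex, fun i hi => ?_⟩
    have := Nat.find_min hex hi
    exact le_antisymm (hanti i) (not_lt.1 this)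
  rcases l with _ | l'
  · exact absurd hl1 (lt_irrefl _)
  have hlk : l' + 1 ≤ k := by
    by_contra h
    have := hl2 k (by omega)
    omega
  set x := γ.ci 0 with hxdef
  have hcix : ∀ s < l' + 1, γ.ci s = x := by
    intro s
    induction s with
    | zero => exact fun _ => rfl
    | succ s ih =>
      intro hs
      rw [γ.ci_succ s (by rw [hl2 s (by omega), hl2 (s + 1) hs])]
      exact ih (by omega)
  have hx : ∀ s < l' + 1, γ.ci s = x ∧ γ.nu s + 1 = γ.nu 0 + 1 := fun s hs =>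
    ⟨hcix s hs, by rw [hl2 s hs]⟩
  have hxl : E (dd (γ.th (l' + 1) x)) (γ.nu 0) := by
    have h1 := γ.E_ci l'
    rw [hcix l' (by omega), hl2 l' (by omega)] at h1
    have h2 := (γ.step l').same
    rw [hcix l' (by omega)] at h2
    rw [h2]
    exact h1
  have hlk' : l' + 1 < k := by
    rcases Nat.lt_or_ge (l' + 1) k with h | h
    · exact h
    exfalso
    have hk : k = l' + 1 := by omega
    subst hk
    have h1 : x ∈ crit p := by
      rw [← hγp, γ.mem_crit_succ]
      left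
      exact (hcix l' (by omega)).symm
    have h2 := hdd1 _ _ (hreg x h1)
    exact h2 ((X_pow_dvd_iff.1 hxl.1) 0 (by omega))
  set u := γ.ci (l' + 1) with hudef
  have hEu := γ.E_ci (l' + 1)
  rw [← hudef] at hEu
  have hxu : x ≠ u := by
    intro h
    rw [← h] at hEu
    have := hxl.unique hEu
    omega
  obtain ⟨w, hw⟩ : ∃ w : Fin n, w ∉ ({x, u} : Finset (Fin n)) := by
    by_contra h
    push Not at h
    have h1 : (Finset.univ : Finset (Fin n)) ⊆ {x, u} := fun w _ => h w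
    have h2 := Finset.card_le_card h1
    have h3 : ({x, u} : Finset (Fin n)).card ≤ 2 := Finset.card_le_two
    rw [Finset.card_univ, Fintype.card_fin] at h2
    omega
  simp only [Finset.mem_insert, Finset.mem_singleton, not_or] at hw
  have hr := step_one hG hγ hlk' hxu hx rfl hxl
  exact step_two hG hγ hlk' hxu hw.1 hw.2 hx rfl hxl hνk hl1 hr

end Q178.Monster
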